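import Pool.Agent.V11320.EW.Laplace

set_option autoImplicit false

open MeasureTheory ProbabilityTheory Filter Topology
open scoped ENNReal

namespace Pool.Agent.V11320.EW

/-- harmonic numbers -/
noncomputable def Hn (n : ℕ) : ℝ := ∑ j ∈ Finset.range n, 1 / ((j : ℝ) + 1)

lemma Hn_succ (n : ℕ) : Hn (n+1) = Hn n + 1 / ((n : ℝ) + 1) := by
  unfold Hn; rw [Finset.sum_range_succ]

lemma Hn_mono : Monotone Hn := by
  refine monotone_nat_of_le_succ fun n => ?_
  rw [Hn_succ]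
  have : 0 < 1 / ((n : ℝ) + 1) := by positivity
  linarith

lemma one_le_Hn {n : ℕ} (h : 1 ≤ n) : 1 ≤ Hn n := by
  have h1 : Hn 1 = 1 := by simp [Hn]
  rw [← h1]; exact Hn_mono h

lemma Hn_le (n : ℕ) : Hn n ≤ n := by
  induction n with
  | zero => simp [Hn]
  | succ n ih =>
    rw [Hn_succ]
    have : 1 / ((n : ℝ) + 1) ≤ 1 := by
      rw [div_le_one (by positivity)]; linarith [Nat.cast_nonneg (α := ℝ) n]
    push_cast
    linarith

lemma Hn_le_half {n : ℕ} (h : 1 ≤ n) : Hn n ≤ ((n : ℝ) + 1) / 2 := by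
  induction n, h using Nat.le_induction with
  | base => simp [Hn]
  | succ n hn ih =>
    rw [Hn_succ]
    have hn' : (1:ℝ) ≤ n := by exact_mod_cast hn
    have : 1 / ((n : ℝ) + 1) ≤ 1 / 2 := by
      apply one_div_le_one_div_of_le <;> linarith
    push_cast
    linarith

lemma Hn_eq (n : ℕ) : Hn n = (harmonic n : ℝ) := by
  unfold Hn harmonic
  push_cast
  refine Finset.sum_congr rfl fun i _ => ?_
  rw [one_div]

lemma Hn_tendsto : Tendsto Hn atTop atTop := by
  refine tendsto_atTop_mono (f := fun n : ℕ => Real.log ((n : ℝ) + 1)) (fun n => ?_) ?_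
  · rw [Hn_eq]
    exact_mod_cast log_add_one_le_harmonic n
  · exact Real.tendsto_log_atTop.comp (tendsto_atTop_add_const_right _ _ tendsto_natCast_atTop_atTop)

lemma Hn_sq {u : ℕ} (h : 1 ≤ u) : Hn (u^2) ≤ 3 * Hn u := by
  have h1 := harmonic_le_one_add_log (u^2)
  have h2 : Real.log ((u : ℝ) + 1) ≤ Hn u := by
    rw [Hn_eq]; exact_mod_cast log_add_one_le_harmonic u
  have h3 := one_le_Hn h
  rw [Hn_eq]
  have h4 : Real.log ((u^2 : ℕ) : ℝ) = 2 * Real.log u := by
    push_cast; rw [Real.log_pow]; norm_num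
  have hu : (1:ℝ) ≤ u := by exact_mod_cast h
  have h5 : Real.log u ≤ Real.log ((u : ℝ) + 1) := Real.log_le_log (by linarith) (by linarith)
  rw [h4] at h1
  linarith

/-- The total drift of the first `n` cookies. -/
noncomputable def SS (n : ℕ) : ℝ :=
  if n ≤ 32 then (n : ℝ) * (1 + 15 / Hn 32) / 32 else 1 + 15 / Hn n

/-- The cookie environment. -/
noncomputable def qq (n : ℕ) : ℝ := (1 + (SS (n+1) - SS n)) / 2

lemma SS_of_ge {n : ℕ} (h : 32 ≤ n) : SS n = 1 + 15 / Hn n := by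
  unfold SS
  split_ifs with h1
  · obtain rfl : n = 32 := le_antisymm h1 h
    push_cast; ring
  · rfl

lemma c_bound : 0 < 1 + 15 / Hn 32 ∧ 1 + 15 / Hn 32 ≤ 16 := by
  have h := one_le_Hn (n := 32) (by norm_num)
  constructor
  · positivity
  · have : 15 / Hn 32 ≤ 15 := div_le_self (by norm_num) h
    linarith

lemma SS_nonneg (n : ℕ) : 0 ≤ SS n := by
  unfold SS
  have := c_bound
  split_ifs with h
  · have := this.1; positivity
  · have := one_le_Hn (n := n) (by omega); positivity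

lemma SS_le (n : ℕ) : SS n ≤ 16 := by
  unfold SS
  have := c_bound
  split_ifs with h
  · have hn : (n : ℝ) ≤ 32 := by exact_mod_cast h
    have := this.2
    have h3 := c_bound.1
    rw [div_le_iff₀ (by norm_num)]
    nlinarith [Nat.cast_nonneg (α := ℝ) n]
  · have h1 := one_le_Hn (n := n) (by omega)
    have : 15 / Hn n ≤ 15 := div_le_self (by norm_num) h1
    linarith

lemma ee_lt {n : ℕ} (h : n < 32) : SS (n+1) - SS n = (1 + 15 / Hn 32) / 32 := by
  unfold SS
  rw [if_pos (by omega), if_pos (by omega)]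
  push_cast; ring

lemma ee_ge {n : ℕ} (h : 32 ≤ n) : SS (n+1) - SS n = 15 / Hn (n+1) - 15 / Hn n := by
  rw [SS_of_ge h, SS_of_ge (by omega)]; ring

lemma ee_ge_bounds {n : ℕ} (h : 32 ≤ n) : SS (n+1) - SS n ≤ 0 ∧ -(1/2) ≤ SS (n+1) - SS n ∧
    |SS (n+1) - SS n| ≤ 15 / ((n : ℝ) + 1) := by
  rw [ee_ge h]
  have h1 := one_le_Hn (n := n) (by omega)
  have h2 := one_le_Hn (n := n+1) (by omega)
  have h3 := Hn_succ n
  have hn : (32:ℝ) ≤ n := by exact_mod_cast h
  have e : 15 / Hn (n+1) - 15 / Hn n = - (15 / ((n : ℝ) + 1) / (Hn n * Hn (n+1))) := by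
    have : Hn (n+1) ≠ 0 := by linarith
    have : Hn n ≠ 0 := by linarith
    have : (n:ℝ) + 1 ≠ 0 := by linarith
    field_simp
    rw [h3]
    field_simp
    ring
  have h4 : 15 / ((n : ℝ) + 1) / (Hn n * Hn (n+1)) ≤ 15 / ((n : ℝ) + 1) :=
    div_le_self (by positivity) (by nlinarith)
  have h5 : 15 / ((n : ℝ) + 1) ≤ 1/2 := by
    rw [div_le_iff₀ (by linarith)]; linarith
  have h6 : 0 ≤ 15 / ((n : ℝ) + 1) / (Hn n * Hn (n+1)) := by positivity
  rw [e]
  refine ⟨by linarith, by linarith, ?_⟩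
  rw [abs_neg, abs_of_nonneg h6]
  exact h4

instance : Ell qq := ⟨fun i => by
  unfold qq
  have hc := c_bound
  rcases lt_or_ge i 32 with h | h
  · rw [ee_lt h]
    constructor <;> linarith
  · have := ee_ge_bounds h
    constructor <;> linarith⟩

lemma two_qq (i : ℕ) : 2 * qq i - 1 = SS (i+1) - SS i := by unfold qq; ring

lemma sum_qq (n : ℕ) : ∑ i ∈ Finset.range n, (2 * qq i - 1) = SS n := by
  simp only [two_qq]
  rw [Finset.sum_range_sub]
  have : SS 0 = 0 := by simp [SS]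
  rw [this, sub_zero]

lemma neg_qq (i : ℕ) (h : 32 ≤ i) : 2 * qq i - 1 ≤ 0 := by
  rw [two_qq]; exact (ee_ge_bounds h).1

/-! ### weights -/

/-- weights -/
noncomputable def aa (k : ℕ) : ℝ := 1 / Hn (k+5) - 1 / Hn (k+6)

/-- scales -/
noncomputable def ss (k : ℕ) : ℝ := 1 - 1 / ((k : ℝ) + 6)

lemma ss_pos (k : ℕ) : 0 < ss k := by
  unfold ss
  have : 1 / ((k : ℝ) + 6) < 1 := by
    rw [div_lt_one (by positivity)]; linarith [Nat.cast_nonneg (α := ℝ) k]
  linarith

lemma ss_lt (k : ℕ) : ss k < 1 := by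
  unfold ss
  have : 0 < 1 / ((k : ℝ) + 6) := by positivity
  linarith

lemma ss_inv (k : ℕ) : (2 - ss k)⁻¹ = ss (k+1) := by
  unfold ss
  have : (k:ℝ) + 6 ≠ 0 := by positivity
  have : (k:ℝ) + 7 ≠ 0 := by positivity
  have h : (2 - (1 - 1 / ((k:ℝ) + 6))) = ((k:ℝ) + 7) / ((k:ℝ) + 6) := by field_simp; ring
  rw [h, inv_div]
  push_cast
  have : (k:ℝ) + 1 + 6 ≠ 0 := by positivity
  field_simp
  ring

lemma aa_eq (k : ℕ) : aa k = 1 / (((k : ℝ) + 6) * Hn (k+5) * Hn (k+6)) := by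
  unfold aa
  have h1 := one_le_Hn (n := k+5) (by omega)
  have h2 := one_le_Hn (n := k+6) (by omega)
  have h3 : Hn (k+6) = Hn (k+5) + 1 / ((k:ℝ) + 6) := by
    rw [Hn_succ (k+5)]; push_cast; ring_nf
  have : Hn (k+5) ≠ 0 := by linarith
  have : Hn (k+6) ≠ 0 := by linarith
  have : (k:ℝ) + 6 ≠ 0 := by positivity
  field_simp
  rw [h3]
  field_simp
  ring

lemma aa_pos (k : ℕ) : 0 < aa k := by
  rw [aa_eq]
  have h1 := one_le_Hn (n := k+5) (by omega)
  have h2 := one_le_Hn (n := k+6) (by omega)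
  positivity

lemma sum_aa (n : ℕ) : ∑ k ∈ Finset.range n, aa k = 1 / Hn 5 - 1 / Hn (n+5) := by
  unfold aa
  have := Finset.sum_range_sub' (fun k => 1 / Hn (k+5)) n
  simpa [add_assoc] using this

lemma sum_aa_le (n : ℕ) : ∑ k ∈ Finset.range n, aa k ≤ 1 := by
  rw [sum_aa]
  have h1 := one_le_Hn (n := 5) (by omega)
  have h2 := one_le_Hn (n := n+5) (by omega)
  have h3 : 1 / Hn 5 ≤ 1 := by rw [div_le_one (by linarith)]; exact h1
  have h4 : 0 < 1 / Hn (n+5) := by positivity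
  linarith

lemma aa_summable : Summable aa :=
  summable_of_sum_range_le (fun k => (aa_pos k).le) sum_aa_le

lemma tsum_aa_le : ∑' k, aa k ≤ 1 :=
  Real.tsum_le_of_sum_range_le (fun k => (aa_pos k).le) sum_aa_le

/-- the key inequality -/
lemma key (k : ℕ) : aa k * Real.exp (-(SS ((k+6)^2) * (1 / ((k:ℝ)+6)))) ≤
    aa (k+1) * (1 - 1 / ((k:ℝ)+7)^2) := by
  set u : ℝ := (k:ℝ) + 6 with hu
  have hu6 : 6 ≤ u := by rw [hu]; linarith [Nat.cast_nonneg (α := ℝ) k]
  have hA1 := one_le_Hn (n := k+5) (by omega)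
  set A := Hn (k+5) with hA
  have hB : Hn (k+6) = A + 1 / u := by
    rw [Hn_succ (k+5)]; push_cast; rw [hA, hu]; ring_nf
  have hC : Hn (k+7) = A + 1 / u + 1 / (u + 1) := by
    rw [Hn_succ (k+6), hB]; push_cast; rw [hu]
  have hAhalf : 2 * A ≤ u := by
    have := Hn_le_half (n := k+5) (by omega)
    push_cast at this
    rw [hA, hu]; linarith
  have h36 : 36 ≤ (k+6)^2 := by
    calc 36 = 6^2 := by norm_num
      _ ≤ (k+6)^2 := Nat.pow_le_pow_left (by omega) 2
  have hS : SS ((k+6)^2) = 1 + 15 / Hn ((k+6)^2) := SS_of_ge (by omega)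
  have hSq := Hn_sq (u := k+6) (by omega)
  have hSpos : 0 < Hn ((k+6)^2) := by
    have := one_le_Hn (n := (k+6)^2) (by omega); linarith
  have hu1 : 1 / u ≤ A := by
    rw [div_le_iff₀ (by linarith)]; nlinarith
  have hS2 : 1 + 2 / A + 1 / (u + 2) ≤ SS ((k+6)^2) := by
    rw [hS]
    have h1 : 15 / (6 * A) ≤ 15 / Hn ((k+6)^2) := by
      refine div_le_div_of_nonneg_left (by norm_num) hSpos ?_
      rw [hB] at hSq; linarith
    have h2 : 2 / A + 1 / (u+2) ≤ 15 / (6 * A) := by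
      have : 1 / (u+2) ≤ 1 / (2 * A) := one_div_le_one_div_of_le (by linarith) (by linarith)
      have e : 15 / (6 * A) = 2 / A + 1 / (2 * A) := by field_simp; norm_num
      rw [e]; linarith
    linarith
  -- exponential lower bound
  have hexp : (1 + 1/u) * ((A + 1/u + 1/(u+1)) / A) * (1 + 1 / (u*(u+2))) ≤
      Real.exp (SS ((k+6)^2) * (1/u)) := by
    have e1 : 1 + 1/u ≤ Real.exp (1/u) := by have := Real.add_one_le_exp (1/u); linarith
    have e2 : (A + 1/u + 1/(u+1)) / A ≤ Real.exp ((2/A) * (1/u)) := by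
      have h3 := Real.add_one_le_exp ((2/A) * (1/u))
      have h4 : (A + 1/u + 1/(u+1)) / A ≤ 2 / A * (1/u) + 1 := by
        rw [div_le_iff₀ (by linarith)]
        have h5 : 1 / (u+1) ≤ 1/u := one_div_le_one_div_of_le (by linarith) (by linarith)
        have h6 : (2 / A * (1/u) + 1) * A = 2 * (1/u) + A := by field_simp
        rw [h6]; linarith
      linarith
    have e3 : 1 + 1/(u*(u+2)) ≤ Real.exp ((1/(u+2)) * (1/u)) := by
      have h3 := Real.add_one_le_exp ((1/(u+2)) * (1/u))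
      have h4 : 1/(u*(u+2)) = (1/(u+2)) * (1/u) := by field_simp
      rw [h4]; linarith
    calc (1 + 1/u) * ((A + 1/u + 1/(u+1)) / A) * (1 + 1 / (u*(u+2)))
        ≤ Real.exp (1/u) * Real.exp ((2/A) * (1/u)) * Real.exp ((1/(u+2)) * (1/u)) := by
          refine mul_le_mul (mul_le_mul e1 e2 (by positivity) (by positivity)) e3 (by positivity)
            (by positivity)
      _ = Real.exp ((1 + 2/A + 1/(u+2)) * (1/u)) := by
          rw [← Real.exp_add, ← Real.exp_add]; congr 1; ring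
      _ ≤ _ := by
          apply Real.exp_le_exp.2
          exact mul_le_mul_of_nonneg_right hS2 (by positivity)
  rw [Real.exp_neg]
  have hpos : 0 < (1 + 1/u) * ((A + 1/u + 1/(u+1)) / A) * (1 + 1 / (u*(u+2))) := by positivity
  have h7 : (Real.exp (SS ((k+6)^2) * (1/u)))⁻¹ ≤
      ((1 + 1/u) * ((A + 1/u + 1/(u+1)) / A) * (1 + 1 / (u*(u+2))))⁻¹ :=
    inv_anti₀ hpos hexp
  refine (mul_le_mul_of_nonneg_left h7 (aa_pos k).le).trans (le_of_eq ?_)
  rw [aa_eq, aa_eq]
  have hk7 : ((k+1 : ℕ) : ℝ) + 6 = u + 1 := by rw [hu]; push_cast; ring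
  have hk7' : (k:ℝ) + 7 = u + 1 := by rw [hu]; ring
  rw [hk7, hk7', show k + 1 + 5 = k + 6 by ring, show k + 1 + 6 = k + 7 by ring, hC, hB,
    show Hn (k+5) = A from rfl, show (k:ℝ) + 6 = u from rfl]
  have hu0 : u ≠ 0 := by linarith
  have hu1' : u + 1 ≠ 0 := by linarith
  have hu2' : u + 2 ≠ 0 := by linarith
  have hA0 : A ≠ 0 := by linarith
  have hB0 : A * u + 1 ≠ 0 := by positivity
  have hC0 : (A * u + 1) * (u + 1) + u ≠ 0 := by positivity
  field_simp
  ring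

end Pool.Agent.V11320.EW
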