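import Pool.Agent.V11320.EW.Mom
import Pool.Agent.V11320.EW.Env

set_option autoImplicit false
set_option linter.unusedSectionVars false

open MeasureTheory ProbabilityTheory Filter Topology
open scoped ENNReal

namespace Pool.Agent.V11320.EW

lemma sq_eq_sum (n : ℕ) : (n : ℝ≥0∞)^2 = ∑ i ∈ Finset.range n, ((2 * i + 1 : ℕ) : ℝ≥0∞) := by
  have : n^2 = ∑ i ∈ Finset.range n, (2 * i + 1) := by
    induction n with
    | zero => simp
    | succ n ih => rw [Finset.sum_range_succ, ← ih]; ring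
  exact_mod_cast congrArg (fun k : ℕ => (k : ℝ≥0∞)) this

lemma T_sq_lt (q : ℕ → ℝ) [Ell q] (x : ℕ) : ∫⁻ b, (T b x : ℝ≥0∞)^2 ∂(cl q) < ∞ := by
  have h1 : ∀ b : ℕ → Bool, (T b x : ℝ≥0∞)^2 ≤
      ∑' n, (if fl b n < x then ((2 * n + 1 : ℕ) : ℝ≥0∞) else 0) := by
    intro b
    rw [sq_eq_sum]
    refine le_trans (le_of_eq ?_) (ENNReal.sum_le_tsum (Finset.range (T b x)))
    refine Finset.sum_congr rfl fun i hi => ?_
    rw [if_pos (lt_of_lt_T (Finset.mem_range.1 hi))]
  refine (lintegral_mono h1).trans_lt ?_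
  have hms : ∀ n, MeasurableSet {b : ℕ → Bool | fl b n < x} := fun n =>
    (meas_fl n) (measurableSet_Iio (a := x))
  rw [lintegral_tsum (fun n => (Measurable.ite (hms n) measurable_const measurable_const).aemeasurable)]
  have h2 : ∀ n, ∫⁻ b, (if fl b n < x then ((2 * n + 1 : ℕ) : ℝ≥0∞) else 0) ∂(cl q) ≤
      ENNReal.ofReal ((2 * (n:ℝ) + 1) * (2 ^ x * (7/8) ^ n)) := by
    intro n
    have e : ∫⁻ b, (if fl b n < x then ((2 * n + 1 : ℕ) : ℝ≥0∞) else 0) ∂(cl q) =
        ((2 * n + 1 : ℕ) : ℝ≥0∞) * (cl q) {b | fl b n < x} := by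
      rw [← lintegral_indicator_const (hms n)]
      refine lintegral_congr fun b => ?_
      simp only [Set.indicator, Set.mem_ofPred_eq]
    rw [e, ENNReal.ofReal_mul (by positivity)]
    refine mul_le_mul' (le_of_eq ?_) ?_
    · rw [← ENNReal.ofReal_natCast]; push_cast; rfl
    · rw [← ENNReal.ofReal_toReal (measure_ne_top (cl q) {b | fl b n < x})]
      exact ENNReal.ofReal_le_ofReal (tail_fl x n)
  refine (ENNReal.tsum_le_tsum h2).trans_lt ?_
  have hs : Summable fun n : ℕ => (2 * (n:ℝ) + 1) * (2 ^ x * (7/8) ^ n) := by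
    have h3 : Summable fun n : ℕ => (n:ℝ)^1 * (7/8 : ℝ)^n :=
      summable_pow_mul_geometric_of_norm_lt_one 1 (by norm_num)
    have h4 : Summable fun n : ℕ => (7/8 : ℝ)^n := summable_geometric_of_lt_one (by norm_num) (by norm_num)
    have h5 := (h3.mul_left (2 * 2^x)).add (h4.mul_left (2^x))
    refine h5.congr fun n => ?_
    ring
  rw [← ENNReal.ofReal_tsum_of_nonneg (fun n => by positivity) hs]
  exact ENNReal.ofReal_lt_top

lemma T_sq_int (q : ℕ → ℝ) [Ell q] (x : ℕ) : Integrable (fun b => ((T b x : ℕ) : ℝ)^2) (cl q) := by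
  refine ⟨((measurable_of_countable (fun n : ℕ => (n:ℝ)^2)).comp (meas_T x)).aestronglyMeasurable, ?_⟩
  rw [hasFiniteIntegral_iff_ofReal (Eventually.of_forall fun b => by positivity)]
  refine lt_of_eq_of_lt (lintegral_congr fun b => ?_) (T_sq_lt q x)
  rw [ENNReal.ofReal_pow (by positivity), ENNReal.ofReal_natCast]

lemma T_int (q : ℕ → ℝ) [Ell q] (x : ℕ) : Integrable (fun b => ((T b x : ℕ) : ℝ)) (cl q) := by
  refine (T_sq_int q x).mono' ((measurable_of_countable (fun n : ℕ => (n:ℝ))).comp (meas_T x)).aestronglyMeasurable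
    (Eventually.of_forall fun b => ?_)
  rw [Real.norm_of_nonneg (by positivity)]
  rcases Nat.eq_zero_or_pos (T b x) with h | h
  · rw [h]; simp
  · have : (1:ℝ) ≤ T b x := by exact_mod_cast h
    nlinarith

lemma U_le_T (b : ℕ → Bool) (x : ℕ) : U b x ≤ T b x := by
  have := tr_add_fl b (T b x)
  unfold U; omega

lemma e_sq_sum (n : ℕ) : ∑ i ∈ Finset.range n, (2 * qq i - 1)^2 ≤ 24 - SS n := by
  induction n with
  | zero => simp [SS]
  | succ n ih =>
    rw [Finset.sum_range_succ]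
    rcases lt_or_ge n 32 with h | h
    · have h1 : ∀ i ∈ Finset.range n, (2 * qq i - 1)^2 ≤ 1/4 := by
        intro i _
        have := Ell.h (q := qq) i
        nlinarith [this.1, this.2]
      have h2 := Finset.sum_le_card_nsmul _ _ _ h1
      rw [Finset.card_range, nsmul_eq_mul] at h2
      have h3 : (2 * qq n - 1)^2 ≤ 1/4 := by
        have := Ell.h (q := qq) n
        nlinarith [this.1, this.2]
      have h4 : (n:ℝ) ≤ 31 := by exact_mod_cast (show n ≤ 31 by omega)
      have := SS_le (n+1)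
      nlinarith
    · have h1 := ee_ge_bounds h
      rw [two_qq]
      nlinarith [h1.1, h1.2.1]

lemma st_le_T {b : ℕ → Bool} {x n m : ℕ} (h : x ≤ fl b m) : st b x n ≤ T b x := by
  unfold st
  split_ifs with h1
  · exact (lt_T_of_lt h h1).le
  · exact le_rfl

/-- limiting martingale -/
noncomputable def Mi (x : ℕ) (b : ℕ → Bool) : ℝ := ((U b x : ℝ) - x) - SS (T b x)

lemma MM_eq (x n : ℕ) (b : ℕ → Bool) :
    MM qq x n b = ((tr b (st b x n) : ℝ) - fl b (st b x n)) - SS (st b x n) := by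
  have := MM_add_CC (q := qq) x n b
  rw [CC_eq, sum_qq] at this
  linarith

lemma MM_bound {x n m : ℕ} {b : ℕ → Bool} (h : x ≤ fl b m) : |MM qq x n b| ≤ (T b x : ℝ) + 16 := by
  rw [MM_eq]
  have h1 := st_le_T (n := n) h
  have h2 := tr_add_fl b (st b x n)
  have h3 : ((tr b (st b x n) : ℝ)) + fl b (st b x n) = st b x n := by exact_mod_cast h2
  have h4 : (st b x n : ℝ) ≤ T b x := by exact_mod_cast h1
  have h5 := SS_nonneg (st b x n)
  have h6 := SS_le (st b x n)
  have h7 : (0:ℝ) ≤ tr b (st b x n) := by positivity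
  have h8 : (0:ℝ) ≤ fl b (st b x n) := by positivity
  rw [abs_le]
  constructor <;> linarith

lemma MM_lim {x m : ℕ} {b : ℕ → Bool} (h : x ≤ fl b m) :
    ∀ᶠ n in atTop, MM qq x n b = Mi x b := by
  filter_upwards [eventually_ge_atTop m] with n hn
  rw [MM_eq, st_of_reach (h.trans (fl_mono b hn)), fl_T h]
  rfl

lemma gbound_int (x : ℕ) : Integrable (fun b => ((T b x : ℝ) + 16)) (cl qq) :=
  (T_int qq x).add (integrable_const _)

lemma gbound_sq_int (x : ℕ) : Integrable (fun b => ((T b x : ℝ) + 16)^2) (cl qq) := by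
  have h : (fun b : ℕ → Bool => ((T b x : ℝ) + 16)^2) = fun b => (T b x : ℝ)^2 + (32 * (T b x : ℝ) + 256) := by
    funext b; ring
  rw [h]
  exact (T_sq_int qq x).add (((T_int qq x).const_mul 32).add (integrable_const _))

lemma Mi_mean (x : ℕ) : ∫ b, Mi x b ∂(cl qq) = 0 := by
  have h1 : Tendsto (fun n => ∫ b, MM qq x n b ∂(cl qq)) atTop (𝓝 (∫ b, Mi x b ∂(cl qq))) := by
    refine tendsto_integral_of_dominated_convergence (fun b => (T b x : ℝ) + 16)
      (fun n => (MM_dep x n).integrable.aestronglyMeasurable) (gbound_int x) (fun n => ?_) ?_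
    · filter_upwards [ae_reach (q := qq)] with b hb
      obtain ⟨m, hm⟩ := hb x
      exact MM_bound hm
    · filter_upwards [ae_reach (q := qq)] with b hb
      obtain ⟨m, hm⟩ := hb x
      exact tendsto_const_nhds.congr' ((MM_lim hm).mono fun n hn => hn.symm)
  simp only [integral_MM] at h1
  exact (tendsto_nhds_unique h1 tendsto_const_nhds)

lemma Mi_sq (x : ℕ) : ∫ b, (Mi x b)^2 ∂(cl qq) =
    ∫ b, ∑ i ∈ Finset.range (T b x), (1 - (2 * qq i - 1)^2) ∂(cl qq) := by
  have h1 : Tendsto (fun n => ∫ b, (MM qq x n b)^2 ∂(cl qq)) atTop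
      (𝓝 (∫ b, (Mi x b)^2 ∂(cl qq))) := by
    refine tendsto_integral_of_dominated_convergence (fun b => ((T b x : ℝ) + 16)^2)
      (fun n => ?_) (gbound_sq_int x) (fun n => ?_) ?_
    · exact (MM_dep x n).integrable.aestronglyMeasurable.pow 2
    · filter_upwards [ae_reach (q := qq)] with b hb
      obtain ⟨m, hm⟩ := hb x
      rw [Real.norm_of_nonneg (sq_nonneg _), ← sq_abs]
      exact pow_le_pow_left₀ (abs_nonneg _) (MM_bound hm) 2
    · filter_upwards [ae_reach (q := qq)] with b hb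
      obtain ⟨m, hm⟩ := hb x
      exact tendsto_const_nhds.congr' ((MM_lim hm).mono fun n hn => by simp only; rw [hn])
  have h2 : Tendsto (fun n => ∫ b, QQ qq x n b ∂(cl qq)) atTop
      (𝓝 (∫ b, ∑ i ∈ Finset.range (T b x), (1 - (2 * qq i - 1)^2) ∂(cl qq))) := by
    refine tendsto_integral_of_dominated_convergence (fun b => (T b x : ℝ))
      (fun n => (QQ_dep x n).integrable.aestronglyMeasurable) (T_int qq x) (fun n => ?_) ?_
    · filter_upwards [ae_reach (q := qq)] with b hb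
      obtain ⟨m, hm⟩ := hb x
      rw [QQ_eq]
      have h3 : ∀ i, 0 ≤ 1 - (2 * qq i - 1)^2 ∧ 1 - (2 * qq i - 1)^2 ≤ 1 := by
        intro i
        have := Ell.h (q := qq) i
        constructor <;> nlinarith [this.1, this.2]
      rw [Real.norm_of_nonneg (Finset.sum_nonneg fun i _ => (h3 i).1)]
      have h4 := Finset.sum_le_card_nsmul (Finset.range (st b x n)) _ _ fun i _ => (h3 i).2
      rw [Finset.card_range, nsmul_eq_mul, mul_one] at h4
      have h5 : (st b x n : ℝ) ≤ T b x := by exact_mod_cast st_le_T (n := n) hm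
      linarith
    · filter_upwards [ae_reach (q := qq)] with b hb
      obtain ⟨m, hm⟩ := hb x
      refine tendsto_const_nhds.congr' ?_
      filter_upwards [eventually_ge_atTop m] with n hn
      rw [QQ_eq, st_of_reach (hm.trans (fl_mono b hn))]
  simp only [integral_MM_sq] at h1
  exact tendsto_nhds_unique h1 h2

lemma U_int (x : ℕ) : Integrable (fun b => (U b x : ℝ)) (cl qq) := by
  refine (T_int qq x).mono' ((measurable_of_countable (fun n : ℕ => (n:ℝ))).comp (meas_U x)).aestronglyMeasurable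
    (Eventually.of_forall fun b => ?_)
  rw [Real.norm_of_nonneg (by positivity)]
  exact_mod_cast U_le_T b x

lemma U_sq_int (x : ℕ) : Integrable (fun b => (U b x : ℝ)^2) (cl qq) := by
  refine (T_sq_int qq x).mono' ((measurable_of_countable (fun n : ℕ => (n:ℝ)^2)).comp (meas_U x)).aestronglyMeasurable
    (Eventually.of_forall fun b => ?_)
  rw [Real.norm_of_nonneg (by positivity)]
  have : (U b x : ℝ) ≤ T b x := by exact_mod_cast U_le_T b x
  exact pow_le_pow_left₀ (by positivity) this 2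

lemma SST_int (x : ℕ) : Integrable (fun b => SS (T b x)) (cl qq) := by
  refine Integrable.of_bound (C := 16) ((measurable_of_countable SS).comp (meas_T x)).aestronglyMeasurable
    (Eventually.of_forall fun b => ?_)
  rw [Real.norm_of_nonneg (SS_nonneg _)]
  exact SS_le _

lemma Ux_int (x : ℕ) : Integrable (fun b => ((U b x : ℝ) - x)) (cl qq) :=
  (U_int x).sub (integrable_const _)

lemma rho_eq (x : ℕ) : ∫ b, ((U b x : ℝ) - x) ∂(cl qq) = ∫ b, SS (T b x) ∂(cl qq) := by
  have h := Mi_mean x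
  unfold Mi at h
  rw [integral_sub (Ux_int x) (SST_int x)] at h
  linarith

lemma rho_bounds {x : ℕ} (hx : 32 ≤ x) : 1 ≤ ∫ b, ((U b x : ℝ) - x) ∂(cl qq) ∧
    ∫ b, ((U b x : ℝ) - x) ∂(cl qq) ≤ 1 + 15 / Hn x := by
  rw [rho_eq]
  have h1 : ∀ᵐ b ∂(cl qq), 1 ≤ SS (T b x) ∧ SS (T b x) ≤ 1 + 15 / Hn x := by
    filter_upwards [ae_reach (q := qq)] with b hb
    obtain ⟨m, hm⟩ := hb x
    have hT : x ≤ T b x := by have := U_add hm; omega
    rw [SS_of_ge (hx.trans hT)]
    have h2 := one_le_Hn (n := x) (by omega)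
    have h3 := Hn_mono hT
    have h4 : 0 < 15 / Hn (T b x) := by
      have : 0 < Hn (T b x) := by linarith
      positivity
    refine ⟨by linarith, ?_⟩
    have : 15 / Hn (T b x) ≤ 15 / Hn x := div_le_div_of_nonneg_left (by norm_num) (by linarith) h3
    linarith
  constructor
  · have := integral_mono_ae (integrable_const (1:ℝ)) (SST_int x) (h1.mono fun b hb => hb.1)
    simpa using this
  · have := integral_mono_ae (SST_int x) (integrable_const (1 + 15 / Hn x)) (h1.mono fun b hb => hb.2)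
    simpa using this

lemma T_mean (x : ℕ) : ∫ b, (T b x : ℝ) ∂(cl qq) = ∫ b, ((U b x : ℝ) - x) ∂(cl qq) + 2 * x := by
  have h1 : ∫ b, (T b x : ℝ) ∂(cl qq) = ∫ b, (((U b x : ℝ) - x) + 2 * x) ∂(cl qq) := by
    refine integral_congr_ae ?_
    filter_upwards [ae_reach (q := qq)] with b hb
    obtain ⟨m, hm⟩ := hb x
    have : (U b x : ℝ) + x = T b x := by exact_mod_cast U_add hm
    linarith
  rw [h1, integral_add (Ux_int x) (integrable_const _)]
  simp

lemma Mi_sq_bounds {x : ℕ} (hx : 32 ≤ x) : 2 * (x:ℝ) - 24 ≤ ∫ b, (Mi x b)^2 ∂(cl qq) ∧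
    ∫ b, (Mi x b)^2 ∂(cl qq) ≤ 2 * (x:ℝ) + 16 := by
  have hb := rho_bounds hx
  have h16 : 1 + 15 / Hn x ≤ 16 := by
    have := one_le_Hn (n := x) (by omega)
    have : 15 / Hn x ≤ 15 := div_le_self (by norm_num) this
    linarith
  rw [Mi_sq]
  have hq : ∀ n : ℕ, ((n:ℝ) - 24 ≤ ∑ i ∈ Finset.range n, (1 - (2 * qq i - 1)^2)) ∧
      ∑ i ∈ Finset.range n, (1 - (2 * qq i - 1)^2) ≤ (n:ℝ) := by
    intro n
    rw [Finset.sum_sub_distrib]
    simp only [Finset.sum_const, Finset.card_range, nsmul_eq_mul, mul_one]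
    have h1 := e_sq_sum n
    have h2 := SS_nonneg n
    have h3 : 0 ≤ ∑ i ∈ Finset.range n, (2 * qq i - 1)^2 := Finset.sum_nonneg fun i _ => sq_nonneg _
    constructor <;> linarith
  have hint : Integrable (fun b => ∑ i ∈ Finset.range (T b x), (1 - (2 * qq i - 1)^2)) (cl qq) := by
    refine ((T_int qq x).add (integrable_const (24:ℝ))).mono' ?_ (Eventually.of_forall fun b => ?_)
    · exact ((measurable_of_countable
        (fun n : ℕ => ∑ i ∈ Finset.range n, (1 - (2 * qq i - 1)^2))).comp (meas_T x)).aestronglyMeasurable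
    · have h1 := hq (T b x)
      have h2 : (0:ℝ) ≤ T b x := by positivity
      rw [Real.norm_eq_abs, abs_le]
      simp only [Pi.add_apply]
      constructor <;> linarith [h1.1, h1.2]
  constructor
  · have hI : Integrable (fun b : ℕ → Bool => (T b x : ℝ) - 24) (cl qq) :=
      (T_int qq x).sub (integrable_const (24:ℝ))
    have h1 := integral_mono hI hint (fun b => (hq (T b x)).1)
    have h2 : ∫ b, ((T b x : ℝ) - 24) ∂(cl qq) = ∫ b, (T b x : ℝ) ∂(cl qq) - 24 := by
      rw [integral_sub (T_int qq x) (integrable_const _)]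
      simp
    rw [h2, T_mean] at h1
    linarith [hb.1]
  · have h1 := integral_mono hint (T_int qq x) (fun b => (hq (T b x)).2)
    rw [T_mean] at h1
    linarith [hb.2]

lemma Mi_sq_int (x : ℕ) : Integrable (fun b => (Mi x b)^2) (cl qq) := by
  refine (gbound_sq_int x).mono' ?_ ?_
  · have h1 : Measurable fun b : ℕ → Bool => Mi x b := by
      unfold Mi
      exact (((measurable_of_countable (fun n : ℕ => (n:ℝ))).comp (meas_U x)).sub_const _).sub
        ((measurable_of_countable SS).comp (meas_T x))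
    exact (h1.pow_const 2).aestronglyMeasurable
  · filter_upwards [ae_reach (q := qq)] with b hb
    obtain ⟨m, hm⟩ := hb x
    obtain ⟨n, hn⟩ := (MM_lim hm).exists
    rw [Real.norm_of_nonneg (sq_nonneg _), ← sq_abs, ← hn]
    exact pow_le_pow_left₀ (abs_nonneg _) (MM_bound hm) 2

lemma var_bounds {x : ℕ} {a : ℝ} (ha : 0 < a) :
    (1 - a) * ∫ b, (Mi x b)^2 ∂(cl qq) - 256 / a ≤ ∫ b, ((U b x : ℝ) - x)^2 ∂(cl qq) ∧
    ∫ b, ((U b x : ℝ) - x)^2 ∂(cl qq) ≤ (1 + a) * ∫ b, (Mi x b)^2 ∂(cl qq) + 256 / a + 256 := by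
  have hpt : ∀ b : ℕ → Bool, (1 - a) * (Mi x b)^2 - 256 / a ≤ ((U b x : ℝ) - x)^2 ∧
      ((U b x : ℝ) - x)^2 ≤ (1 + a) * (Mi x b)^2 + (256 / a + 256) := by
    intro b
    set M := Mi x b with hM
    set S := SS (T b x) with hS
    have h1 : (U b x : ℝ) - x = M + S := by rw [hM, hS, Mi]; ring
    have h2 := SS_nonneg (T b x)
    have h3 := SS_le (T b x)
    rw [← hS] at h2 h3
    rw [h1]
    have h4 : S^2 ≤ 256 := by nlinarith
    have h5 : S^2 / a ≤ 256 / a := div_le_div_of_nonneg_right h4 ha.le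
    have h6 : 0 ≤ a * M^2 - 2 * M * S + S^2 / a := by
      have : a * M^2 - 2 * M * S + S^2 / a = (a * M - S)^2 / a := by field_simp; ring
      rw [this]; positivity
    have h7 : 0 ≤ a * M^2 + 2 * M * S + S^2 / a := by
      have : a * M^2 + 2 * M * S + S^2 / a = (a * M + S)^2 / a := by field_simp; ring
      rw [this]; positivity
    constructor
    · nlinarith [sq_nonneg S]
    · nlinarith
  have hUi : Integrable (fun b => ((U b x : ℝ) - x)^2) (cl qq) := by
    have h : (fun b : ℕ → Bool => ((U b x : ℝ) - x)^2) = fun b => (U b x : ℝ)^2 + (-(2 * (x:ℝ)) * (U b x : ℝ) + (x:ℝ)^2) := by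
      funext b; ring
    rw [h]
    exact (U_sq_int x).add (((U_int x).const_mul _).add (integrable_const _))
  constructor
  · have hI : Integrable (fun b : ℕ → Bool => (1 - a) * (Mi x b)^2 - 256 / a) (cl qq) :=
      ((Mi_sq_int x).const_mul (1 - a)).sub (integrable_const (256 / a))
    have h1 := integral_mono hI hUi (fun b => (hpt b).1)
    have h2 : ∫ b, ((1 - a) * (Mi x b)^2 - 256 / a) ∂(cl qq) =
        (1 - a) * ∫ b, (Mi x b)^2 ∂(cl qq) - 256 / a := by
      rw [integral_sub ((Mi_sq_int x).const_mul _) (integrable_const _), integral_const_mul]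
      simp
    rw [h2] at h1
    exact h1
  · have hI : Integrable (fun b : ℕ → Bool => (1 + a) * (Mi x b)^2 + (256 / a + 256)) (cl qq) :=
      ((Mi_sq_int x).const_mul (1 + a)).add (integrable_const (256 / a + 256))
    have h1 := integral_mono hUi hI (fun b => (hpt b).2)
    have h2 : ∫ b, ((1 + a) * (Mi x b)^2 + (256 / a + 256)) ∂(cl qq) =
        (1 + a) * ∫ b, (Mi x b)^2 ∂(cl qq) + (256 / a + 256) := by
      rw [integral_add ((Mi_sq_int x).const_mul _) (integrable_const _), integral_const_mul]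
      simp
    rw [h2] at h1
    linarith

lemma rho_tendsto : Tendsto (fun x : ℕ => ∫ b, ((U b x : ℝ) - x) ∂(cl qq)) atTop (𝓝 1) := by
  have h1 : Tendsto (fun x : ℕ => 1 + 15 / Hn x) atTop (𝓝 (1 + 0)) :=
    (tendsto_const_nhds.div_atTop Hn_tendsto).const_add _
  rw [add_zero] at h1
  refine tendsto_of_tendsto_of_tendsto_of_le_of_le' tendsto_const_nhds h1 ?_ ?_
  · filter_upwards [eventually_ge_atTop 32] with x hx using (rho_bounds hx).1
  · filter_upwards [eventually_ge_atTop 32] with x hx using (rho_bounds hx).2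

lemma nu_tendsto : Tendsto (fun x : ℕ => (∫ b, ((U b x : ℝ) - x)^2 ∂(cl qq)) / x) atTop (𝓝 2) := by
  have hinv : Tendsto (fun x : ℕ => 1 / Real.sqrt (x:ℝ)) atTop (𝓝 0) :=
    tendsto_const_nhds.div_atTop (Real.tendsto_sqrt_atTop.comp tendsto_natCast_atTop_atTop)
  have hinv2 : Tendsto (fun x : ℕ => 1 / (x:ℝ)) atTop (𝓝 0) :=
    tendsto_const_nhds.div_atTop tendsto_natCast_atTop_atTop
  have hlo : Tendsto (fun x : ℕ => (1 - 1 / Real.sqrt (x:ℝ)) * (2 - 24 * (1 / (x:ℝ))) -
      256 * (1 / Real.sqrt (x:ℝ))) atTop (𝓝 ((1 - 0) * (2 - 24 * 0) - 256 * 0)) :=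
    ((hinv.const_sub 1).mul ((hinv2.const_mul 24).const_sub 2)).sub (hinv.const_mul 256)
  have hhi : Tendsto (fun x : ℕ => (1 + 1 / Real.sqrt (x:ℝ)) * (2 + 16 * (1 / (x:ℝ))) +
      256 * (1 / Real.sqrt (x:ℝ)) + 256 * (1 / (x:ℝ))) atTop
      (𝓝 ((1 + 0) * (2 + 16 * 0) + 256 * 0 + 256 * 0)) :=
    (((hinv.const_add 1).mul ((hinv2.const_mul 16).const_add 2)).add (hinv.const_mul 256)).add
      (hinv2.const_mul 256)
  norm_num at hlo hhi
  refine tendsto_of_tendsto_of_tendsto_of_le_of_le' (by simpa using hlo) (by simpa using hhi) ?_ ?_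
  · filter_upwards [eventually_ge_atTop 32] with x hx
    have hxr : (32:ℝ) ≤ x := by exact_mod_cast hx
    have hs1 : 1 ≤ Real.sqrt x := Real.one_le_sqrt.2 (by linarith)
    have hsq : Real.sqrt x * Real.sqrt x = x := Real.mul_self_sqrt (by linarith)
    have h1 := (var_bounds (x := x) (a := 1 / Real.sqrt x) (by positivity)).1
    have h2 := (Mi_sq_bounds hx).1
    have h3 : 0 ≤ 1 - 1 / Real.sqrt x := by
      have : 1 / Real.sqrt x ≤ 1 := by rw [div_le_one (by linarith)]; exact hs1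
      linarith
    have h4 := mul_le_mul_of_nonneg_left h2 h3
    rw [le_div_iff₀ (by linarith)]
    have h5 : 256 / (1 / Real.sqrt x) = 256 * (Real.sqrt x)⁻¹ * x := by
      have : Real.sqrt (x:ℝ) ≠ 0 := by linarith
      field_simp
      nlinarith
    rw [h5] at h1
    have h6 : (2 - 24 * (x:ℝ)⁻¹) * x = 2 * x - 24 := by
      have : (x:ℝ) ≠ 0 := by linarith
      field_simp
    have h7 : ((1 - (Real.sqrt x)⁻¹) * (2 - 24 * (x:ℝ)⁻¹) - 256 * (Real.sqrt x)⁻¹) * x =
        (1 - (Real.sqrt x)⁻¹) * (2 * x - 24) - 256 * (Real.sqrt x)⁻¹ * x := by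
      rw [← h6]; ring
    rw [h7]
    rw [one_div] at h4 h1
    linarith
  · filter_upwards [eventually_ge_atTop 32] with x hx
    have hxr : (32:ℝ) ≤ x := by exact_mod_cast hx
    have hs1 : 1 ≤ Real.sqrt x := Real.one_le_sqrt.2 (by linarith)
    have hsq : Real.sqrt x * Real.sqrt x = x := Real.mul_self_sqrt (by linarith)
    have h1 := (var_bounds (x := x) (a := 1 / Real.sqrt x) (by positivity)).2
    have h2 := (Mi_sq_bounds hx).2
    have h3 : 0 ≤ 1 + 1 / Real.sqrt x := by positivity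
    have h4 := mul_le_mul_of_nonneg_left h2 h3
    rw [div_le_iff₀ (by linarith)]
    have h5 : 256 / (1 / Real.sqrt x) = 256 * (Real.sqrt x)⁻¹ * x := by
      have : Real.sqrt (x:ℝ) ≠ 0 := by linarith
      field_simp
      nlinarith
    rw [h5] at h1
    have hx0 : (x:ℝ) ≠ 0 := by linarith
    have h6 : (2 + 16 * (x:ℝ)⁻¹) * x = 2 * x + 16 := by
      field_simp
    have h7 : ((1 + (Real.sqrt x)⁻¹) * (2 + 16 * (x:ℝ)⁻¹) + 256 * (Real.sqrt x)⁻¹ + 256 * (x:ℝ)⁻¹) * x =
        (1 + (Real.sqrt x)⁻¹) * (2 * x + 16) + 256 * (Real.sqrt x)⁻¹ * x + 256 := by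
      rw [← h6]; field_simp
    rw [h7]
    rw [one_div] at h4 h1
    linarith

lemma mu_tendsto : Tendsto (fun x : ℕ => (∫ b, (U b x : ℝ) ∂(cl qq)) / x) atTop (𝓝 1) := by
  have h1 : Tendsto (fun x : ℕ => (∫ b, ((U b x : ℝ) - x) ∂(cl qq)) * (1 / (x:ℝ)) + 1) atTop
      (𝓝 (1 * 0 + 1)) :=
    (rho_tendsto.mul (tendsto_const_nhds.div_atTop tendsto_natCast_atTop_atTop)).add_const 1
  norm_num at h1
  refine h1.congr' ?_
  filter_upwards [eventually_ge_atTop 1] with x hx
  have hx0 : (x:ℝ) ≠ 0 := by have : (1:ℝ) ≤ x := by exact_mod_cast hx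
                             linarith
  rw [integral_sub (U_int x) (integrable_const _)]
  simp
  field_simp
  ring

lemma theta_tendsto : Tendsto (fun x : ℕ => 2 * (∫ b, ((U b x : ℝ) - x) ∂(cl qq)) /
    ((∫ b, ((U b x : ℝ) - x)^2 ∂(cl qq)) / x)) atTop (𝓝 1) := by
  have h := (rho_tendsto.const_mul 2).div nu_tendsto (by norm_num)
  norm_num at h
  exact h

end Pool.Agent.V11320.EW
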