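import Pool.Agent.V11320.EW.Erw
import Pool.Agent.V11320.EW.Mom2

set_option autoImplicit false

open MeasureTheory ProbabilityTheory Filter Topology
open scoped ENNReal

namespace Pool.Agent.V11320.EW

/-- `B 1, B 2, …` are independent trials, `B i` being a success with probability `p i`. -/
structure IsTrials {Ω : Type} [MeasurableSpace Ω] (p : ℕ → ℝ) (P : Measure Ω) (B : ℕ → Ω → Bool) :
    Prop where
  meas : ∀ i, Measurable (B i)
  indep : iIndepFun B P
  prob : ∀ i, P {ω | B i ω = true} = ENNReal.ofReal (p i)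

/-- `U(x)`: the number of successes among the trials `B 1, B 2, …` before the `x`-th failure. -/
noncomputable def UU {Ω : Type} (B : ℕ → Ω → Bool) (x : ℕ) (ω : Ω) : ℕ := U (fun i => B (i+1) ω) x

/-- `ρ(x) = E[U(x) - μ x]` -/
noncomputable def rho {Ω : Type} [MeasurableSpace Ω] (P : Measure Ω) (B : ℕ → Ω → Bool) (μ : ℝ)
    (x : ℕ) : ℝ := ∫ ω, ((UU B x ω : ℝ) - μ * x) ∂P

/-- `ν(x) = E[(U(x) - μ x)²] / x` -/
noncomputable def nu {Ω : Type} [MeasurableSpace Ω] (P : Measure Ω) (B : ℕ → Ω → Bool) (μ : ℝ)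
    (x : ℕ) : ℝ := (∫ ω, ((UU B x ω : ℝ) - μ * x)^2 ∂P) / x

/-- `θ(x) = 2 ρ(x) / ν(x)` -/
noncomputable def theta {Ω : Type} [MeasurableSpace Ω] (P : Measure Ω) (B : ℕ → Ω → Bool) (μ : ℝ)
    (x : ℕ) : ℝ := 2 * rho P B μ x / nu P B μ x

variable {Ω : Type} [MeasurableSpace Ω] {P : Measure Ω} [IsProbabilityMeasure P]
  {B : ℕ → Ω → Bool} {p : ℕ → ℝ}

lemma trials_law (hp : ∀ i, p (i+1) = qq i) (h : IsTrials p P B) :
    P.map (fun ω i => B (i+1) ω) = cl qq := by
  have h1 : iIndepFun (fun i => B (i+1)) P := h.indep.precomp (fun a b hab => by simpa using hab)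
  have h2 := h1.map_fun_eq_infinitePi_map (fun i => h.meas (i+1))
  rw [h2]
  unfold cl
  congr! 2 with i
  have hprob : IsProbabilityMeasure (P.map (B (i+1))) := Measure.isProbabilityMeasure_map (h.meas _).aemeasurable
  have ht : (P.map (B (i+1))) {true} = ENNReal.ofReal (qq i) := by
    rw [Measure.map_apply (h.meas _) (measurableSet_singleton _), ← hp]
    exact h.prob (i+1)
  refine Measure.ext_of_singleton fun a => ?_
  cases a with
  | true => rw [ht, bern_true]
  | false =>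
    have hc : ({false} : Set Bool) = {true}ᶜ := by ext a; cases a <;> simp
    rw [bern_false, hc, prob_compl_eq_one_sub (measurableSet_singleton _), ht,
      ENNReal.ofReal_sub _ (by have := Ell.h (q := qq) i; linarith [this.1])]
    simp

lemma trials_integral (hp : ∀ i, p (i+1) = qq i) (h : IsTrials p P B) (x : ℕ) (f : ℕ → ℝ) :
    ∫ ω, f (UU B x ω) ∂P = ∫ b, f (U b x) ∂(cl qq) := by
  rw [← trials_law hp h, integral_map]
  · rfl
  · exact (measurable_pi_lambda _ fun i => h.meas (i+1)).aemeasurable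
  · exact ((measurable_of_countable f).comp (meas_U x)).aestronglyMeasurable

lemma trials_integrable (hp : ∀ i, p (i+1) = qq i) (h : IsTrials p P B) (x : ℕ) {f : ℕ → ℝ}
    (hf : Integrable (fun b => f (U b x)) (cl qq)) : Integrable (fun ω => f (UU B x ω)) P := by
  rw [← trials_law hp h] at hf
  exact hf.comp_measurable (measurable_pi_lambda _ fun i => h.meas (i+1))

/-- the environment, indexed from `1` -/
noncomputable def pp (j : ℕ) : ℝ := qq (j - 1)

lemma pp_succ (i : ℕ) : pp (i+1) = qq i := rfl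

lemma pp_ell (i : ℕ) : 1/4 ≤ pp i ∧ pp i ≤ 1 - 1/4 := by
  have := Ell.h (q := qq) (i - 1)
  unfold pp
  constructor
  · exact this.1
  · linarith [this.2]

theorem pp_main :
    (∀ i, 1/4 ≤ pp i ∧ pp i ≤ 1 - 1/4) ∧
    (∀ (Ω : Type) [MeasurableSpace Ω] (P : Measure Ω) [IsProbabilityMeasure P]
      (B : ℕ → Ω → Bool), IsTrials pp P B →
        (∀ x, Integrable (fun ω => (UU B x ω : ℝ)^2) P) ∧
        Tendsto (fun x : ℕ => (∫ ω, (UU B x ω : ℝ) ∂P) / x) atTop (𝓝 1) ∧
        Tendsto (fun x : ℕ => theta P B 1 x) atTop (𝓝 1)) ∧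
    (∀ (Ω : Type) [MeasurableSpace Ω] (P : Measure Ω) [IsProbabilityMeasure P]
      (X : ℕ → Ω → ℤ), IsERW pp P X → ∀ᵐ ω ∂P, Tendsto (fun n => X n ω) atTop atTop) := by
  refine ⟨pp_ell, ?_, ?_⟩
  · intro Ω _ P _ B h
    refine ⟨fun x => trials_integrable pp_succ h x (f := fun n => (n:ℝ)^2) (U_sq_int x), ?_, ?_⟩
    · have e : ∀ x : ℕ, ∫ ω, (UU B x ω : ℝ) ∂P = ∫ b, (U b x : ℝ) ∂(cl qq) := fun x =>
        trials_integral pp_succ h x (fun n => (n:ℝ))
      simp only [e]
      exact mu_tendsto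
    · have e1 : ∀ x : ℕ, ∫ ω, ((UU B x ω : ℝ) - x) ∂P = ∫ b, ((U b x : ℝ) - x) ∂(cl qq) := fun x =>
        trials_integral pp_succ h x (fun n => (n:ℝ) - x)
      have e2 : ∀ x : ℕ, ∫ ω, ((UU B x ω : ℝ) - x)^2 ∂P = ∫ b, ((U b x : ℝ) - x)^2 ∂(cl qq) :=
        fun x => trials_integral pp_succ h x (fun n => ((n:ℝ) - x)^2)
      unfold theta rho nu
      simp only [one_mul, e1, e2]
      exact theta_tendsto
  · intro Ω _ P _ X h
    exact erw_transient pp_succ (fun i => by
      have := pp_ell i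
      constructor <;> linarith [this.1, this.2]) h

instance ell_pp : Ell pp := ⟨fun i => by
  have := pp_ell i
  exact ⟨this.1, by linarith [this.2]⟩⟩

lemma exists_trials : IsTrials pp (cl pp) (fun i b => b i) where
  meas i := measurable_pi_apply i
  indep := iIndepFun_infinitePi (X := fun _ ω => ω) (by fun_prop)
  prob i := by
    have h : (cl pp).map (fun b => b i) = bern (pp i) :=
      Measure.infinitePi_map_eval (fun i => bern (pp i)) i
    rw [← bern_true (q := pp) i, ← h, Measure.map_apply (measurable_pi_apply i) (measurableSet_singleton _)]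
    rfl

end Pool.Agent.V11320.EW
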