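import Pool.Agent.V11320.EW.Walk

set_option autoImplicit false
set_option linter.unusedSectionVars false

open MeasureTheory ProbabilityTheory Filter Topology
open scoped ENNReal

namespace Pool.Agent.V11320.EW

variable {q : ℕ → ℝ} [Ell q]

/-- arrow field: iid stacks indexed by `ℤ` -/
noncomputable def AM (q : ℕ → ℝ) [Ell q] : Measure (ℤ → ℕ → Bool) :=
  Measure.infinitePi fun _ => cl q

instance : IsProbabilityMeasure (AM q) := by unfold AM; infer_instance

/-- mirrored environment -/
noncomputable def mir (q : ℕ → ℝ) (i : ℕ) : ℝ := 1 - q i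

instance : Ell (mir q) := ⟨fun i => by
  have := Ell.h (q := q) i
  unfold mir
  constructor <;> linarith [this.1, this.2]⟩

lemma bern_not (i : ℕ) : (bern (q i)).map (fun a : Bool => !a) = bern (mir q i) := by
  have hd : ∀ a : Bool, (Measure.dirac a).map (fun a : Bool => !a) = Measure.dirac (!a) :=
    fun a => Measure.map_dirac' (measurable_of_countable _) a
  unfold bern mir
  rw [Measure.map_add _ _ (measurable_of_countable _), Measure.map_smul, Measure.map_smul, hd, hd]
  simp only [Bool.not_true, Bool.not_false, sub_sub_cancel]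
  rw [add_comm]

lemma cl_neg : (cl q).map neg = cl (mir q) := by
  have h := Measure.infinitePi_map_pi (μ := fun i => bern (q i)) (f := fun _ (a : Bool) => !a)
    (fun _ => measurable_of_countable _)
  unfold cl neg
  rw [h]
  congr! 2 with i
  exact bern_not i

lemma ae_reach_tr : ∀ᵐ b ∂(cl q), ∀ x, ∃ n, x ≤ tr b n := by
  have h := ae_reach (q := mir q)
  rw [← cl_neg] at h
  have h2 := ae_of_ae_map meas_neg.aemeasurable h
  filter_upwards [h2] with b hb x
  obtain ⟨n, hn⟩ := hb x
  exact ⟨n, by rwa [fl_neg] at hn⟩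

lemma AM_eval (z : ℤ) : (AM q).map (fun ω => ω z) = cl q :=
  Measure.infinitePi_map_eval (fun _ : ℤ => cl q) z

lemma AM_right : (AM q).map (fun ω (n : ℕ) => ω ((n:ℤ)+1)) = SM q := by
  have h := Measure.map_infinitePi_infinitePi_of_inj (P := fun _ : ℤ => cl q)
    (f := fun n : ℕ => (n:ℤ)+1) (fun a b hab => by simpa using hab)
  exact h

lemma AM_left : (AM q).map (fun ω (n : ℕ) => neg (ω (-((n:ℤ)+1)))) = SM (mir q) := by
  have h := Measure.map_infinitePi_infinitePi_of_inj (P := fun _ : ℤ => cl q)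
    (f := fun n : ℕ => -((n:ℤ)+1)) (fun a b hab => by simpa using hab)
  have h2 := Measure.infinitePi_map_pi (μ := fun _ : ℕ => cl q) (f := fun _ => neg)
    (fun _ => meas_neg)
  have h3 : (AM q).map (fun ω (n : ℕ) => neg (ω (-((n:ℤ)+1)))) =
      ((AM q).map (fun ω (n : ℕ) => ω (-((n:ℤ)+1)))).map (fun σ n => neg (σ n)) := by
    rw [Measure.map_map]
    · rfl
    · exact measurable_pi_lambda _ fun i => meas_neg.comp (measurable_pi_apply i)
    · exact measurable_pi_lambda _ fun i => measurable_pi_apply _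
  rw [h3]
  unfold AM
  rw [h, h2]
  unfold SM
  congr! 2 with i
  exact cl_neg

theorem arrow_transient : ∀ᵐ ω ∂(AM qq), Tendsto (XA ω) atTop atTop := by
  have h1 : ∀ᵐ ω ∂(AM qq), ∀ z : ℤ, ∀ x, ∃ m, x ≤ fl (ω z) m := by
    rw [ae_all_iff]
    intro z
    have h := ae_reach (q := qq)
    rw [← AM_eval (q := qq) z] at h
    exact ae_of_ae_map (measurable_pi_apply z).aemeasurable h
  have h2 : ∀ᵐ ω ∂(AM qq), ∀ z : ℤ, ∀ x, ∃ m, x ≤ tr (ω z) m := by
    rw [ae_all_iff]
    intro z
    have h := ae_reach_tr (q := qq)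
    rw [← AM_eval (q := qq) z] at h
    exact ae_of_ae_map (measurable_pi_apply z).aemeasurable h
  have h3 : ∀ᵐ ω ∂(AM qq), ¬ ∀ k, ∃ n, W (fun i => ω ((i:ℤ)+1)) k n = 0 := by
    have h : ∀ᵐ σ ∂(SM qq), ¬ ∀ k, ∃ n, W σ k n = 0 := by
      rw [ae_iff]
      simpa using dies_zero
    rw [← AM_right (q := qq)] at h
    exact ae_of_ae_map (measurable_pi_lambda _ fun i => measurable_pi_apply _).aemeasurable h
  have h4 : ∀ᵐ ω ∂(AM qq), ∀ k, ¬ ∀ n, W (fun i => neg (ω (-((i:ℤ)+1)))) k n ≠ 0 := by
    have h : ∀ᵐ σ ∂(SM (mir qq)), ∀ k, ¬ ∀ n, W σ k n ≠ 0 := by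
      rw [ae_all_iff]
      intro k
      rw [ae_iff]
      have := ext_zero (q := mir qq) (fun n => by
        have e : ∑ i ∈ Finset.range n, (2 * mir qq i - 1) = -∑ i ∈ Finset.range n, (2 * qq i - 1) := by
          rw [← Finset.sum_neg_distrib]
          refine Finset.sum_congr rfl fun i _ => ?_
          unfold mir; ring
        rw [e, sum_qq]
        have := SS_nonneg n
        linarith) k
      simpa only [not_not] using this
    rw [← AM_left (q := qq)] at h
    refine ae_of_ae_map (Measurable.aemeasurable ?_) h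
    exact measurable_pi_lambda _ fun i => meas_neg.comp (measurable_pi_apply _)
  filter_upwards [h1, h2, h3, h4] with ω a b c d
  exact walk_transient a b c d

end Pool.Agent.V11320.EW
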