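import Mathlib

set_option autoImplicit false

open MeasureTheory ProbabilityTheory Filter Topology
open scoped ENNReal

namespace Pool.Agent.V11320.EW

/-- The number of failures (`false`) among the trials `b 0, …, b (n-1)`. -/
def fl (b : ℕ → Bool) (n : ℕ) : ℕ := ((Finset.range n).filter fun i => b i = false).card

/-- The number of successes (`true`) among the trials `b 0, …, b (n-1)`. -/
def tr (b : ℕ → Bool) (n : ℕ) : ℕ := ((Finset.range n).filter fun i => b i = true).card

/-- The number of trials needed to see `x` failures (`0` if this never happens). -/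
noncomputable def T (b : ℕ → Bool) (x : ℕ) : ℕ := sInf {n | x ≤ fl b n}

/-- The number of successes before the `x`-th failure. -/
noncomputable def U (b : ℕ → Bool) (x : ℕ) : ℕ := tr b (T b x)

def neg (b : ℕ → Bool) : ℕ → Bool := fun i => !(b i)

lemma fl_zero (b : ℕ → Bool) : fl b 0 = 0 := by simp [fl]
lemma tr_zero (b : ℕ → Bool) : tr b 0 = 0 := by simp [tr]

lemma fl_succ (b : ℕ → Bool) (n : ℕ) : fl b (n+1) = fl b n + if b n = false then 1 else 0 := by
  unfold fl
  rw [Finset.range_add_one, Finset.filter_insert]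
  split_ifs with h
  · rw [Finset.card_insert_of_notMem (by simp)]
  · simp

lemma tr_succ (b : ℕ → Bool) (n : ℕ) : tr b (n+1) = tr b n + if b n = true then 1 else 0 := by
  unfold tr
  rw [Finset.range_add_one, Finset.filter_insert]
  split_ifs with h
  · rw [Finset.card_insert_of_notMem (by simp)]
  · simp

lemma tr_add_fl (b : ℕ → Bool) (n : ℕ) : tr b n + fl b n = n := by
  induction n with
  | zero => simp [fl_zero, tr_zero]
  | succ n ih =>
    rw [fl_succ, tr_succ]
    cases h : b n <;> simp <;> omega

lemma fl_mono (b : ℕ → Bool) : Monotone (fl b) := by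
  refine monotone_nat_of_le_succ fun n => ?_
  rw [fl_succ]; omega

lemma tr_mono (b : ℕ → Bool) : Monotone (tr b) := by
  refine monotone_nat_of_le_succ fun n => ?_
  rw [tr_succ]; omega

lemma fl_neg (b : ℕ → Bool) (n : ℕ) : fl (neg b) n = tr b n := by
  unfold fl tr neg; simp

lemma tr_neg (b : ℕ → Bool) (n : ℕ) : tr (neg b) n = fl b n := by
  unfold fl tr neg; simp

lemma T_le {b : ℕ → Bool} {x n : ℕ} (h : x ≤ fl b n) : T b x ≤ n := Nat.sInf_le h

lemma T_spec {b : ℕ → Bool} {x n : ℕ} (h : x ≤ fl b n) : x ≤ fl b (T b x) :=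
  Nat.sInf_mem (s := {n | x ≤ fl b n}) ⟨n, h⟩

lemma lt_of_lt_T {b : ℕ → Bool} {x m : ℕ} (h : m < T b x) : fl b m < x := by
  by_contra hc
  push Not at hc
  exact absurd (T_le hc) (by omega)

lemma lt_T_of_lt {b : ℕ → Bool} {x n m : ℕ} (h : x ≤ fl b n) (hm : fl b m < x) : m < T b x := by
  by_contra hc
  push Not at hc
  have := fl_mono b hc
  have := T_spec h
  omega

lemma fl_T {b : ℕ → Bool} {x n : ℕ} (h : x ≤ fl b n) : fl b (T b x) = x := by
  refine le_antisymm ?_ (T_spec h)
  rcases Nat.eq_zero_or_pos (T b x) with h0 | h0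
  · rw [h0, fl_zero]; omega
  · obtain ⟨m, hm⟩ := Nat.exists_eq_succ_of_ne_zero h0.ne'
    have h1 : fl b m < x := lt_of_lt_T (by omega)
    rw [hm, Nat.succ_eq_add_one, fl_succ]
    split_ifs <;> omega

lemma U_add {b : ℕ → Bool} {x n : ℕ} (h : x ≤ fl b n) : U b x + x = T b x := by
  have := tr_add_fl b (T b x)
  rw [fl_T h] at this
  exact this

lemma U_zero (b : ℕ → Bool) : U b 0 = 0 := by
  have : T b 0 = 0 := by
    have := T_le (b := b) (x := 0) (n := 0) (by omega)
    omega
  simp [U, this, tr_zero]

lemma T_mono {b : ℕ → Bool} {x y n : ℕ} (h : y ≤ fl b n) (hxy : x ≤ y) : T b x ≤ T b y :=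
  T_le (hxy.trans (T_spec h))

lemma U_mono {b : ℕ → Bool} {x y n : ℕ} (h : y ≤ fl b n) (hxy : x ≤ y) : U b x ≤ U b y :=
  tr_mono b (T_mono h hxy)

lemma U_last {b : ℕ → Bool} {c : ℕ} (h : c = 0 ∨ b (c-1) = false) : U b (fl b c) = tr b c := by
  have : T b (fl b c) = c := by
    refine le_antisymm (T_le le_rfl) ?_
    rcases h with rfl | h
    · omega
    · by_contra hc
      push Not at hc
      obtain ⟨m, rfl⟩ : ∃ m, c = m + 1 := ⟨c - 1, by omega⟩
      have h1 := fl_mono b (show T b (fl b (m+1)) ≤ m by omega)
      have h2 := T_spec (b := b) (x := fl b (m+1)) (n := m+1) le_rfl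
      rw [fl_succ] at h2 h1
      simp at h
      simp [h] at h1 h2
      omega
  rw [U, this]

lemma le_U_neg {b : ℕ → Bool} {c n : ℕ} (h : tr b c + 1 ≤ tr b n) :
    fl b c ≤ U (neg b) (tr b c + 1) := by
  have h' : tr b c + 1 ≤ fl (neg b) n := by rw [fl_neg]; exact h
  have h1 := T_spec h'
  rw [fl_neg] at h1
  have h2 : c ≤ T (neg b) (tr b c + 1) := by
    by_contra hc
    push Not at hc
    have := tr_mono b hc.le
    omega
  rw [U, tr_neg]
  exact fl_mono b h2

/-! ### measurability -/

lemma meas_fl (n : ℕ) : Measurable fun b : ℕ → Bool => fl b n := by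
  induction n with
  | zero => simp only [fl_zero]; exact measurable_const
  | succ n ih =>
    simp only [fl_succ]
    refine ih.add (Measurable.ite ?_ measurable_const measurable_const)
    exact measurableSet_preimage (f := fun b : ℕ → Bool => b n) (measurable_pi_apply n)
      (measurableSet_singleton false)

lemma meas_tr (n : ℕ) : Measurable fun b : ℕ → Bool => tr b n := by
  induction n with
  | zero => simp only [tr_zero]; exact measurable_const
  | succ n ih =>
    simp only [tr_succ]
    refine ih.add (Measurable.ite ?_ measurable_const measurable_const)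
    exact measurableSet_preimage (f := fun b : ℕ → Bool => b n) (measurable_pi_apply n)
      (measurableSet_singleton true)

lemma meas_T (x : ℕ) : Measurable fun b : ℕ → Bool => T b x := by
  refine measurable_to_countable' fun n => ?_
  have hfl : ∀ m, MeasurableSet {b : ℕ → Bool | x ≤ fl b m} := fun m =>
    (meas_fl m) (measurableSet_Ici (a := x))
  have : (fun b : ℕ → Bool => T b x) ⁻¹' {n} =
      ({b | x ≤ fl b n} ∩ ⋂ m ∈ Finset.range n, {b | x ≤ fl b m}ᶜ) ∪
        ({b | n = 0} ∩ ⋂ m, {b | x ≤ fl b m}ᶜ) := by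
    ext b
    simp only [Set.mem_preimage, Set.mem_singleton_iff, Set.mem_union, Set.mem_inter_iff,
      Set.mem_ofPred_eq, Set.mem_iInter, Set.mem_compl_iff, Finset.mem_range]
    constructor
    · intro h
      by_cases hx : ∃ m, x ≤ fl b m
      · obtain ⟨m, hm⟩ := hx
        left
        refine ⟨h ▸ T_spec hm, fun k hk hk' => ?_⟩
        have := T_le hk'
        omega
      · right
        push Not at hx
        refine ⟨?_, fun m => by have := hx m; omega⟩
        rw [← h, T]
        have : {n | x ≤ fl b n} = ∅ := by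
          ext m; simpa using hx m
        rw [this, Nat.sInf_empty]
    · rintro (⟨h1, h2⟩ | ⟨h1, h2⟩)
      · refine le_antisymm (T_le h1) ?_
        by_contra hc
        push Not at hc
        exact h2 _ hc (T_spec h1)
      · subst h1
        rw [T]
        have : {n | x ≤ fl b n} = ∅ := by
          ext m; simpa using h2 m
        rw [this, Nat.sInf_empty]
  rw [this]
  refine MeasurableSet.union (MeasurableSet.inter (hfl n) ?_) (MeasurableSet.inter ?_ ?_)
  · exact Finset.measurableSet_biInter _ fun m _ => (hfl m).compl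
  · exact MeasurableSet.const _
  · exact MeasurableSet.iInter fun m => (hfl m).compl

lemma meas_U (x : ℕ) : Measurable fun b : ℕ → Bool => U b x := by
  have h : Measurable (fun q : (ℕ → Bool) × ℕ => tr q.1 q.2) :=
    measurable_from_prod_countable_left fun n => meas_tr n
  exact h.comp (measurable_id.prodMk (meas_T x))

lemma meas_U2 : Measurable fun q : (ℕ → Bool) × ℕ => U q.1 q.2 :=
  measurable_from_prod_countable_left fun n => meas_U n

lemma meas_neg : Measurable neg :=
  measurable_pi_lambda _ fun i => (measurable_of_countable fun c : Bool => !c).comp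
    (measurable_pi_apply i)

end Pool.Agent.V11320.EW
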