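import Pool.Agent.V11320.EW.Arrow

set_option autoImplicit false
set_option linter.unusedSectionVars false

open MeasureTheory ProbabilityTheory Filter Topology
open scoped ENNReal

namespace Pool.Agent.V11320.EW

/-- For a path `x`, the number of visits to the site `x n` up to and including time `n`. -/
def visits (x : ℕ → ℤ) (n : ℕ) : ℕ := ((Finset.range (n+1)).filter fun k => x k = x n).card

/-- `X` is an excited random walk in the identically piled cookie environment `p`: it starts at
`0`, and if it follows the path `x 0, …, x n` and this is its `j`-th visit to `x n`, then it steps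
to the right with probability `p j` and to the left with probability `1 - p j`. -/
structure IsERW {Ω : Type} [MeasurableSpace Ω] (p : ℕ → ℝ) (P : Measure Ω) (X : ℕ → Ω → ℤ) :
    Prop where
  meas : ∀ n, Measurable (X n)
  start : ∀ᵐ ω ∂P, X 0 ω = 0
  right : ∀ (n : ℕ) (x : ℕ → ℤ), P {ω | (∀ k ≤ n, X k ω = x k) ∧ X (n+1) ω = x n + 1} =
    ENNReal.ofReal (p (visits x n)) * P {ω | ∀ k ≤ n, X k ω = x k}
  left : ∀ (n : ℕ) (x : ℕ → ℤ), P {ω | (∀ k ≤ n, X k ω = x k) ∧ X (n+1) ω = x n - 1} =
    ENNReal.ofReal (1 - p (visits x n)) * P {ω | ∀ k ≤ n, X k ω = x k}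

noncomputable def wt (p : ℕ → ℝ) (x : ℕ → ℤ) (n : ℕ) : ℝ≥0∞ :=
  if x (n+1) = x n + 1 then ENNReal.ofReal (p (visits x n))
  else if x (n+1) = x n - 1 then ENNReal.ofReal (1 - p (visits x n)) else 0

section
variable {Ω : Type} [MeasurableSpace Ω] {P : Measure Ω} [IsProbabilityMeasure P] {p : ℕ → ℝ}
  {X : ℕ → Ω → ℤ}

lemma cyl_meas (hX : ∀ n, Measurable (X n)) (n : ℕ) (x : ℕ → ℤ) :
    MeasurableSet {ω | ∀ k ≤ n, X k ω = x k} := by
  have : {ω | ∀ k ≤ n, X k ω = x k} = ⋂ k, ⋂ (_ : k ≤ n), (X k) ⁻¹' {x k} := by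
    ext ω; simp
  rw [this]
  exact MeasurableSet.iInter fun k => MeasurableSet.iInter fun _ => hX k (measurableSet_singleton _)

lemma cyl_succ (h : IsERW p P X) (hp : ∀ i, 0 ≤ p i ∧ p i ≤ 1) (n : ℕ) (x : ℕ → ℤ) :
    P {ω | ∀ k ≤ n+1, X k ω = x k} = wt p x n * P {ω | ∀ k ≤ n, X k ω = x k} := by
  have hset : {ω | ∀ k ≤ n+1, X k ω = x k} = {ω | (∀ k ≤ n, X k ω = x k) ∧ X (n+1) ω = x (n+1)} := by
    ext ω
    simp only [Set.mem_ofPred_eq]
    constructor
    · intro h; exact ⟨fun k hk => h k (by omega), h _ le_rfl⟩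
    · rintro ⟨h1, h2⟩ k hk
      rcases Nat.lt_or_ge k (n+1) with h3 | h3
      · exact h1 k (by omega)
      · obtain rfl : k = n+1 := le_antisymm hk h3
        exact h2
  rw [hset]
  unfold wt
  split_ifs with h1 h2
  · rw [h1]; exact h.right n x
  · rw [h2]; exact h.left n x
  · rw [zero_mul]
    set A := {ω | ∀ k ≤ n, X k ω = x k} with hA
    have hAm : MeasurableSet A := cyl_meas h.meas n x
    set S0 := {ω | (∀ k ≤ n, X k ω = x k) ∧ X (n+1) ω = x (n+1)} with hS0
    set S1 := {ω | (∀ k ≤ n, X k ω = x k) ∧ X (n+1) ω = x n + 1} with hS1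
    set S2 := {ω | (∀ k ≤ n, X k ω = x k) ∧ X (n+1) ω = x n - 1} with hS2
    have hm : ∀ a : ℤ, MeasurableSet {ω | (∀ k ≤ n, X k ω = x k) ∧ X (n+1) ω = a} := fun a =>
      hAm.inter (h.meas (n+1) (measurableSet_singleton a))
    have hd12 : Disjoint S1 S2 := by
      rw [Set.disjoint_left]; rintro ω ⟨_, ha⟩ ⟨_, hb⟩; omega
    have hd0 : Disjoint S0 (S1 ∪ S2) := by
      rw [Set.disjoint_left]; rintro ω ⟨_, ha⟩ (⟨_, hb⟩ | ⟨_, hb⟩) <;> omega
    have hsub : S0 ∪ (S1 ∪ S2) ⊆ A := by
      rintro ω (ha | ha | ha) <;> exact ha.1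
    have h3 := measure_mono (μ := P) hsub
    rw [measure_union hd0 ((hm _).union (hm _)), measure_union hd12 (hm _), h.right n x, h.left n x,
      ← add_mul, ← ENNReal.ofReal_add (hp _).1 (by linarith [(hp (visits x n)).2])] at h3
    simp only [add_sub_cancel, ENNReal.ofReal_one, one_mul] at h3
    have h4 : P S0 + P A ≤ 0 + P A := by rw [zero_add]; exact h3
    have h5 := (ENNReal.add_le_add_iff_right (measure_ne_top P A)).1 h4
    exact le_antisymm h5 zero_le

lemma cyl_zero' (h : IsERW p P X) (x : ℕ → ℤ) :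
    P {ω | ∀ k ≤ 0, X k ω = x k} = if x 0 = 0 then 1 else 0 := by
  have hset : {ω | ∀ k ≤ 0, X k ω = x k} = {ω | X 0 ω = x 0} := by
    ext ω; simp
  rw [hset]
  split_ifs with h0
  · rw [h0]
    have := (prob_compl_eq_zero_iff (μ := P) (h.meas 0 (measurableSet_singleton 0))).1 (by
      have := h.start
      rw [ae_iff] at this
      exact this)
    exact this
  · refine measure_mono_null (fun ω hω => ?_) (ae_iff.1 h.start)
    simp only [Set.mem_ofPred_eq] at hω ⊢
    omega

end

/-- cylinder sets of paths -/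
def Cyl : Set (Set (ℕ → ℤ)) := {s | ∃ (n : ℕ) (x : ℕ → ℤ), s = {y | ∀ k ≤ n, y k = x k}}

lemma pi_Cyl : IsPiSystem Cyl := by
  rintro _ ⟨n, x, rfl⟩ _ ⟨m, y, rfl⟩ ⟨z, hz1, hz2⟩
  refine ⟨max n m, z, ?_⟩
  ext w
  simp only [Set.mem_inter_iff, Set.mem_ofPred_eq] at hz1 hz2 ⊢
  constructor
  · rintro ⟨h1, h2⟩ k hk
    rcases le_max_iff.1 hk with h | h
    · rw [h1 k h, hz1 k h]
    · rw [h2 k h, hz2 k h]
  · intro h
    exact ⟨fun k hk => by rw [h k (hk.trans (le_max_left _ _)), hz1 k hk],
      fun k hk => by rw [h k (hk.trans (le_max_right _ _)), hz2 k hk]⟩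

lemma gen_Cyl : (inferInstance : MeasurableSpace (ℕ → ℤ)) = MeasurableSpace.generateFrom Cyl := by
  apply le_antisymm
  · refine iSup_le fun k => ?_
    refine Measurable.comap_le ?_
    refine @measurable_to_countable' ℤ (ℕ → ℤ) _ _ (MeasurableSpace.generateFrom Cyl) _ fun a => ?_
    have : (fun y : ℕ → ℤ => y k) ⁻¹' {a} =
        ⋃ (z : Fin (k+1) → ℤ) (_ : z (Fin.last k) = a),
          {y : ℕ → ℤ | ∀ i ≤ k, y i = (fun i => if h : i < k + 1 then z ⟨i, h⟩ else 0) i} := by
      ext y
      simp only [Set.mem_preimage, Set.mem_singleton_iff, Set.mem_iUnion, Set.mem_ofPred_eq]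
      constructor
      · intro h
        refine ⟨fun i => y i, by simpa using h, fun i hi => ?_⟩
        rw [dif_pos (by omega)]
      · rintro ⟨z, hz, h⟩
        have := h k le_rfl
        rw [dif_pos (by omega)] at this
        rw [this, ← hz]
        rfl
    rw [this]
    refine MeasurableSet.iUnion fun z => MeasurableSet.iUnion fun _ => ?_
    exact MeasurableSpace.measurableSet_generateFrom ⟨k, _, rfl⟩
  · refine MeasurableSpace.generateFrom_le ?_
    rintro _ ⟨n, x, rfl⟩
    exact cyl_meas (X := fun n (y : ℕ → ℤ) => y n) (fun n => measurable_pi_apply n) n x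

lemma law_unique {Ω Ω' : Type} [MeasurableSpace Ω] [MeasurableSpace Ω'] {P : Measure Ω}
    {P' : Measure Ω'} [IsProbabilityMeasure P] [IsProbabilityMeasure P'] {p : ℕ → ℝ}
    {X : ℕ → Ω → ℤ} {X' : ℕ → Ω' → ℤ} (h : IsERW p P X) (h' : IsERW p P' X')
    (hp : ∀ i, 0 ≤ p i ∧ p i ≤ 1) :
    P.map (fun ω n => X n ω) = P'.map (fun ω n => X' n ω) := by
  have hm : Measurable fun ω n => X n ω := measurable_pi_lambda _ h.meas
  have hm' : Measurable fun ω n => X' n ω := measurable_pi_lambda _ h'.meas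
  have : IsProbabilityMeasure (P.map fun ω n => X n ω) := Measure.isProbabilityMeasure_map hm.aemeasurable
  have : IsProbabilityMeasure (P'.map fun ω n => X' n ω) := Measure.isProbabilityMeasure_map hm'.aemeasurable
  refine ext_of_generate_finite Cyl gen_Cyl pi_Cyl ?_ (by simp)
  rintro _ ⟨n, x, rfl⟩
  have hms : MeasurableSet {y : ℕ → ℤ | ∀ k ≤ n, y k = x k} :=
    cyl_meas (X := fun n (y : ℕ → ℤ) => y n) (fun n => measurable_pi_apply n) n x
  rw [Measure.map_apply hm hms, Measure.map_apply hm' hms]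
  show P {ω | ∀ k ≤ n, X k ω = x k} = P' {ω | ∀ k ≤ n, X' k ω = x k}
  induction n with
  | zero => rw [cyl_zero' h, cyl_zero' h']
  | succ n ih =>
    rw [cyl_succ h hp, cyl_succ h' hp, ih]
    exact cyl_meas (X := fun n (y : ℕ → ℤ) => y n) (fun n => measurable_pi_apply n) n x

lemma meas_tendsto : MeasurableSet {y : ℕ → ℤ | Tendsto y atTop atTop} := by
  have : {y : ℕ → ℤ | Tendsto y atTop atTop} = ⋂ b : ℤ, ⋃ N : ℕ, ⋂ n : ℕ, ⋂ (_ : N ≤ n), {y | b ≤ y n} := by
    ext y
    simp only [Set.mem_ofPred_eq, Set.mem_iInter, Set.mem_iUnion]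
    rw [tendsto_atTop]
    refine forall_congr' fun b => ?_
    rw [eventually_atTop]
  rw [this]
  refine MeasurableSet.iInter fun b => MeasurableSet.iUnion fun N => MeasurableSet.iInter fun n =>
    MeasurableSet.iInter fun _ => ?_
  exact measurableSet_le measurable_const (measurable_pi_apply n)

/-! ### the arrow walk is an ERW -/

variable {q : ℕ → ℝ} [Ell q]

def cc (x : ℕ → ℤ) (n : ℕ) : ℕ := ((Finset.range n).filter fun k => x k = x n).card

lemma visits_eq (x : ℕ → ℤ) (n : ℕ) : visits x n = cc x n + 1 := by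
  unfold visits cc
  rw [Finset.range_add_one, Finset.filter_insert, if_pos rfl, Finset.card_insert_of_notMem (by simp)]

lemma CA_card (ω : ℤ → ℕ → Bool) (n : ℕ) (y : ℤ) :
    CA ω n y = ((Finset.range n).filter fun k => XA ω k = y).card := by
  induction n with
  | zero => simp [CA_zero]
  | succ n ih =>
    rw [CA_succ, Finset.range_add_one, Finset.filter_insert]
    by_cases h : XA ω n = y
    · rw [if_pos h.symm, if_pos h, Finset.card_insert_of_notMem (by simp), ih]
    · rw [if_neg (fun h' => h h'.symm), if_neg h, ih]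

lemma CA_of_path {ω : ℤ → ℕ → Bool} {n : ℕ} {x : ℕ → ℤ} (h : ∀ k ≤ n, XA ω k = x k) :
    CA ω n (x n) = cc x n := by
  rw [CA_card]
  unfold cc
  congr 1
  refine Finset.filter_congr fun k hk => ?_
  rw [h k (Finset.mem_range.1 hk).le]

lemma XA_next {ω : ℤ → ℕ → Bool} {n : ℕ} {x : ℕ → ℤ} (h : ∀ k ≤ n, XA ω k = x k) :
    XA ω (n+1) = if ω (x n) (cc x n) = true then x n + 1 else x n - 1 := by
  rw [XA_succ, h n le_rfl, CA_of_path h]

lemma path_iff {x : ℕ → ℤ} (h0 : x 0 = 0) (ω : ℤ → ℕ → Bool) (n : ℕ)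
    (hv : ∀ k < n, x (k+1) = x k + 1 ∨ x (k+1) = x k - 1) :
    (∀ k ≤ n, XA ω k = x k) ↔ ∀ k < n, ω (x k) (cc x k) = decide (x (k+1) = x k + 1) := by
  induction n with
  | zero => simp [XA_zero, h0]
  | succ n ih =>
    have ih' := ih fun k hk => hv k (by omega)
    constructor
    · intro h k hk
      have h1 := XA_next (n := k) (fun j hj => h j (by omega))
      rw [h (k+1) (by omega)] at h1
      cases hω : ω (x k) (cc x k)
      · rw [hω] at h1
        simp at h1
        rw [eq_comm, decide_eq_false_iff_not]; omega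
      · rw [hω] at h1
        simp at h1
        rw [eq_comm, decide_eq_true_iff]; exact h1
    · intro h k hk
      have h1 : ∀ k ≤ n, XA ω k = x k := ih'.2 fun k hk => h k (by omega)
      rcases Nat.lt_or_ge k (n+1) with h3 | h3
      · exact h1 k (by omega)
      · obtain rfl : k = n+1 := le_antisymm hk h3
        rw [XA_next h1, h n (by omega)]
        have := hv n (by omega)
        by_cases h4 : x (n+1) = x n + 1
        · simp [h4]
        · simp [h4]; omega

lemma phi_inj (x : ℕ → ℤ) : Function.Injective fun k => (x k, cc x k) := by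
  have key : ∀ i j, i < j → x i = x j → cc x i < cc x j := by
    intro i j hij h
    unfold cc
    refine Finset.card_lt_card ?_
    rw [Finset.ssubset_iff_of_subset]
    · refine ⟨i, ?_, by simp⟩
      simp [hij, h]
    · intro k hk
      simp only [Finset.mem_filter, Finset.mem_range] at hk ⊢
      exact ⟨by omega, by rw [hk.2, h]⟩
  intro i j hij
  simp only [Prod.mk.injEq] at hij
  rcases lt_trichotomy i j with h | h | h
  · have := key i j h hij.1; omega
  · exact h
  · have := key j i h hij.1.symm; omega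

lemma arrow_prob (x : ℕ → ℤ) (d : ℕ → Bool) (n : ℕ) :
    (AM q) {ω | ∀ k < n, ω (x k) (cc x k) = d k} =
      ∏ k ∈ Finset.range n, (bern (q (cc x k))) {d k} := by
  have hi : iIndepFun (fun (p : ℤ × ℕ) (ω : ℤ → ℕ → Bool) => ω p.1 p.2) (AM q) :=
    iIndepFun_uncurry_infinitePi' (X := fun _ _ (a : Bool) => a) (fun (_ : ℤ) i => bern (q i))
      (fun _ _ => measurable_id)
  have hi2 := hi.precomp (phi_inj x)
  have h1 := hi2.measure_inter_preimage_eq_mul (Finset.range n) (sets := fun k => {d k})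
    (fun k _ => measurableSet_singleton _)
  have h2 : {ω : ℤ → ℕ → Bool | ∀ k < n, ω (x k) (cc x k) = d k} =
      ⋂ k ∈ Finset.range n, (fun ω : ℤ → ℕ → Bool => ω (x k) (cc x k)) ⁻¹' {d k} := by
    ext ω; simp
  rw [h2]
  refine h1.trans (Finset.prod_congr rfl fun k _ => ?_)
  have h3 : (AM q).map (fun ω => ω (x k) (cc x k)) = bern (q (cc x k)) := by
    have e1 : (AM q).map (fun ω => ω (x k) (cc x k)) =
        ((AM q).map (fun ω => ω (x k))).map (fun b => b (cc x k)) := by
      rw [Measure.map_map (measurable_pi_apply _) (measurable_pi_apply _)]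
      rfl
    rw [e1, AM_eval]
    exact Measure.infinitePi_map_eval (fun i => bern (q i)) (cc x k)
  rw [← h3, Measure.map_apply _ (measurableSet_singleton _)]
  exact (measurable_pi_apply (cc x k)).comp (measurable_pi_apply (x k))

lemma bern_true (i : ℕ) : (bern (q i)) {true} = ENNReal.ofReal (q i) := by
  simp only [bern, Measure.coe_add, Measure.coe_smul, Pi.add_apply, Pi.smul_apply, smul_eq_mul]
  rw [Measure.dirac_apply' _ (measurableSet_singleton _),
    Measure.dirac_apply' _ (measurableSet_singleton _)]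
  simp

lemma bern_false (i : ℕ) : (bern (q i)) {false} = ENNReal.ofReal (1 - q i) := by
  simp only [bern, Measure.coe_add, Measure.coe_smul, Pi.add_apply, Pi.smul_apply, smul_eq_mul]
  rw [Measure.dirac_apply' _ (measurableSet_singleton _),
    Measure.dirac_apply' _ (measurableSet_singleton _)]
  simp

lemma XA_meas (n : ℕ) : Measurable (fun ω => XA ω n) ∧ ∀ y, Measurable (fun ω => CA ω n y) := by
  induction n with
  | zero => exact ⟨measurable_const, fun y => measurable_const⟩
  | succ n ih =>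
    constructor
    · refine measurable_to_countable' fun a => ?_
      have : (fun ω : ℤ → ℕ → Bool => XA ω (n+1)) ⁻¹' {a} = ⋃ (z : ℤ) (c : ℕ),
          (({ω | XA ω n = z} ∩ {ω | CA ω n z = c}) ∩
            {ω | (if ω z c = true then z + 1 else z - 1) = a}) := by
        ext ω
        simp only [Set.mem_preimage, Set.mem_singleton_iff, Set.mem_iUnion, Set.mem_inter_iff,
          Set.mem_ofPred_eq]
        constructor
        · intro h
          exact ⟨XA ω n, CA ω n (XA ω n), ⟨rfl, rfl⟩, by rw [← XA_succ]; exact h⟩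
        · rintro ⟨z, c, ⟨h1, h2⟩, h3⟩
          rw [XA_succ, h1, h2]; exact h3
      rw [this]
      refine MeasurableSet.iUnion fun z => MeasurableSet.iUnion fun c => ?_
      refine MeasurableSet.inter (MeasurableSet.inter (ih.1 (measurableSet_singleton z))
        (ih.2 z (measurableSet_singleton c))) ?_
      have hm : Measurable fun ω : ℤ → ℕ → Bool => (if ω z c = true then z + 1 else z - 1) :=
        (measurable_of_countable fun a : Bool => if a = true then z + 1 else z - 1).comp
          ((measurable_pi_apply c).comp (measurable_pi_apply z))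
      exact hm (measurableSet_singleton a)
    · intro y
      simp only [CA_succ]
      refine Measurable.ite ?_ ((ih.2 y).add_const 1) (ih.2 y)
      exact measurableSet_eq_fun measurable_const ih.1

lemma arrow_step (x : ℕ → ℤ) (n : ℕ) (a : Bool) :
    (AM q) {ω | (∀ k ≤ n, XA ω k = x k) ∧ ω (x n) (cc x n) = a} =
      (bern (q (cc x n))) {a} * (AM q) {ω | ∀ k ≤ n, XA ω k = x k} := by
  by_cases hv : x 0 = 0 ∧ ∀ k < n, x (k+1) = x k + 1 ∨ x (k+1) = x k - 1
  · obtain ⟨h0, hv⟩ := hv
    have e1 : {ω | ∀ k ≤ n, XA ω k = x k} =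
        {ω | ∀ k < n, ω (x k) (cc x k) = decide (x (k+1) = x k + 1)} := by
      ext ω; exact path_iff h0 ω n hv
    have e2 : {ω | (∀ k ≤ n, XA ω k = x k) ∧ ω (x n) (cc x n) = a} =
        {ω | ∀ k < n+1, ω (x k) (cc x k) = (if k < n then decide (x (k+1) = x k + 1) else a)} := by
      ext ω
      simp only [Set.mem_ofPred_eq]
      rw [path_iff h0 ω n hv]
      constructor
      · rintro ⟨h1, h2⟩ k hk
        split_ifs with h3
        · exact h1 k h3
        · obtain rfl : k = n := by omega
          exact h2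
      · intro h
        refine ⟨fun k hk => ?_, ?_⟩
        · have := h k (by omega)
          rwa [if_pos hk] at this
        · have := h n (by omega)
          rwa [if_neg (by omega)] at this
    rw [e1, e2, arrow_prob x (fun k => decide (x (k+1) = x k + 1)),
      arrow_prob x (fun k => if k < n then decide (x (k+1) = x k + 1) else a),
      Finset.prod_range_succ, mul_comm]
    simp only [lt_irrefl, if_false]
    congr 1
    refine Finset.prod_congr rfl fun k hk => ?_
    rw [if_pos (Finset.mem_range.1 hk)]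
  · have e1 : {ω : ℤ → ℕ → Bool | ∀ k ≤ n, XA ω k = x k} = ∅ := by
      ext ω
      simp only [Set.mem_ofPred_eq, Set.mem_empty_iff_false, iff_false]
      intro h
      apply hv
      refine ⟨by rw [← h 0 (Nat.zero_le _)]; rfl, fun k hk => ?_⟩
      rw [← h (k+1) (by omega), ← h k (by omega), XA_succ]
      split_ifs <;> simp
    have e2 : {ω : ℤ → ℕ → Bool | (∀ k ≤ n, XA ω k = x k) ∧ ω (x n) (cc x n) = a} = ∅ := by
      rw [Set.eq_empty_iff_forall_notMem] at e1 ⊢
      intro ω hω
      exact e1 ω hω.1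
    rw [e1, e2]; simp

theorem arrow_isERW {p : ℕ → ℝ} (hp : ∀ i, p (i+1) = q i) : IsERW p (AM q) (fun n ω => XA ω n) where
  meas n := (XA_meas n).1
  start := Eventually.of_forall fun ω => rfl
  right n x := by
    have e : {ω : ℤ → ℕ → Bool | (∀ k ≤ n, XA ω k = x k) ∧ XA ω (n+1) = x n + 1} =
        {ω | (∀ k ≤ n, XA ω k = x k) ∧ ω (x n) (cc x n) = true} := by
      ext ω
      simp only [Set.mem_ofPred_eq]
      refine and_congr_right fun h => ?_
      rw [XA_next h]
      cases ω (x n) (cc x n) <;> simp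
      omega
    rw [e, arrow_step, bern_true, visits_eq, hp]
  left n x := by
    have e : {ω : ℤ → ℕ → Bool | (∀ k ≤ n, XA ω k = x k) ∧ XA ω (n+1) = x n - 1} =
        {ω | (∀ k ≤ n, XA ω k = x k) ∧ ω (x n) (cc x n) = false} := by
      ext ω
      simp only [Set.mem_ofPred_eq]
      refine and_congr_right fun h => ?_
      rw [XA_next h]
      cases ω (x n) (cc x n) <;> simp
      omega
    rw [e, arrow_step, bern_false, visits_eq, hp]

theorem erw_transient {p : ℕ → ℝ} (hp : ∀ i, p (i+1) = qq i) (hp0 : ∀ i, 0 ≤ p i ∧ p i ≤ 1)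
    {Ω : Type} [MeasurableSpace Ω] {P : Measure Ω} [IsProbabilityMeasure P] {X : ℕ → Ω → ℤ}
    (h : IsERW p P X) : ∀ᵐ ω ∂P, Tendsto (fun n => X n ω) atTop atTop := by
  have hl := law_unique h (arrow_isERW (q := qq) hp) hp0
  have hm : Measurable fun ω n => X n ω := measurable_pi_lambda _ h.meas
  have hm' : Measurable fun (ω : ℤ → ℕ → Bool) n => XA ω n := measurable_pi_lambda _ fun n => (XA_meas n).1
  have h1 : ∀ᵐ y ∂((AM qq).map fun ω n => XA ω n), Tendsto y atTop atTop := by
    rw [ae_map_iff hm'.aemeasurable meas_tendsto]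
    exact arrow_transient
  rw [← hl, ae_map_iff hm.aemeasurable meas_tendsto] at h1
  exact h1

end Pool.Agent.V11320.EW
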