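import Pool.Agent.V11320.EW.Law

set_option autoImplicit false

open MeasureTheory ProbabilityTheory Filter Topology
open scoped ENNReal

namespace Pool.Agent.V11320.EW

set_option linter.unusedSectionVars false

variable {q : ℕ → ℝ} [Ell q]

/-- one factor of the exponential martingale -/
noncomputable def xi (q : ℕ → ℝ) (s : ℝ) (x i : ℕ) (b : ℕ → Bool) : ℝ :=
  if fl b i < x then (if b i = true then s else 2 - s) / (1 - (2 * q i - 1) * (1 - s)) else 1

noncomputable def NN (q : ℕ → ℝ) (s : ℝ) (x n : ℕ) (b : ℕ → Bool) : ℝ :=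
  ∏ i ∈ Finset.range n, xi q s x i b

lemma den_pos {s : ℝ} (hs : 0 < s) (hs1 : s < 1) (i : ℕ) : 0 < 1 - (2 * q i - 1) * (1 - s) := by
  have h := Ell.h (q := q) i
  nlinarith [h.1, h.2]

lemma xi_dep (s : ℝ) (x i n : ℕ) (h : i < n) : Dep n (xi q s x i) := by
  intro b b' hb
  unfold xi
  rw [fl_congr (n := i) (fun j hj => hb j (by omega)), hb i h]

lemma NN_dep (s : ℝ) (x n : ℕ) : Dep n (NN q s x n) := by
  intro b b' hb
  unfold NN
  refine Finset.prod_congr rfl fun i hi => ?_
  exact xi_dep s x i n (Finset.mem_range.1 hi) b b' hb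

lemma NN_nonneg {s : ℝ} (hs : 0 < s) (hs1 : s < 1) (x n : ℕ) (b : ℕ → Bool) : 0 ≤ NN q s x n b := by
  unfold NN
  refine Finset.prod_nonneg fun i _ => ?_
  unfold xi
  have := den_pos (q := q) hs hs1 i
  split_ifs
  · positivity
  · exact div_nonneg (by linarith) this.le
  · norm_num

lemma integral_NN {s : ℝ} (hs : 0 < s) (hs1 : s < 1) (x n : ℕ) :
    ∫ b, NN q s x n b ∂(cl q) = 1 := by
  induction n with
  | zero => simp [NN]
  | succ n ih =>
    set c : Bool → ℝ := fun a =>
      (if a = true then s else 2 - s) / (1 - (2 * q n - 1) * (1 - s)) - 1 with hc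
    have hd : Dep n fun b => NN q s x n b * (if fl b n < x then 1 else 0) := by
      intro b b' hb
      simp only
      rw [NN_dep s x n b b' hb, fl_congr hb]
    have h1 : ∀ b, NN q s x (n+1) b =
        NN q s x n b + (NN q s x n b * (if fl b n < x then 1 else 0)) * c (b n) := by
      intro b
      have : NN q s x (n+1) b = NN q s x n b * xi q s x n b := by
        unfold NN; rw [Finset.prod_range_succ]
      rw [this, hc]
      unfold xi
      by_cases h : fl b n < x <;> simp [h] <;> ring
    have hd2 : Dep (n+1) fun b => (NN q s x n b * (if fl b n < x then 1 else 0)) * c (b n) := by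
      intro b b' hb
      simp only
      rw [NN_dep s x n b b' (fun i hi => hb i (by omega)), fl_congr (n := n)
        (fun i hi => hb i (by omega)), hb n (by omega)]
    have h2 : q n * c true + (1 - q n) * c false = 0 := by
      have := (den_pos (q := q) hs hs1 n).ne'
      simp only [hc]
      simp only [if_true, Bool.false_eq_true, if_false]
      set D := 1 - (2 * q n - 1) * (1 - s) with hD
      have h3 : q n * s + (1 - q n) * (2 - s) = D := by rw [hD]; ring
      have h4 : q n * (s / D - 1) + (1 - q n) * ((2 - s) / D - 1) =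
          (q n * s + (1 - q n) * (2 - s)) / D - 1 := by ring
      rw [h4, h3, div_self this, sub_self]
    simp only [h1]
    rw [integral_add (NN_dep s x n).integrable hd2.integrable, ih, integral_ind hd, h2]
    ring

lemma prod_T (b : ℕ → Bool) (s : ℝ) (n : ℕ) :
    ∏ i ∈ Finset.range n, (if b i = true then s else 2 - s) = s ^ tr b n * (2 - s) ^ fl b n := by
  induction n with
  | zero => simp [tr_zero, fl_zero]
  | succ n ih =>
    rw [Finset.prod_range_succ, ih, tr_succ, fl_succ]
    cases h : b n <;> simp [pow_succ] <;> ring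

lemma NN_eq {s : ℝ} {x n : ℕ} {b : ℕ → Bool} (h : x ≤ fl b n) :
    NN q s x n b = s ^ U b x * (2 - s) ^ x /
      ∏ i ∈ Finset.range (T b x), (1 - (2 * q i - 1) * (1 - s)) := by
  have hT := T_le h
  have h1 : NN q s x n b = ∏ i ∈ Finset.range (T b x), xi q s x i b := by
    unfold NN
    symm
    refine Finset.prod_subset (Finset.range_mono hT) fun i _ hi => ?_
    have : x ≤ fl b i := by
      have := fl_mono b (show T b x ≤ i by simpa using hi)
      have := T_spec h
      omega
    unfold xi
    rw [if_neg (by omega)]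
  rw [h1]
  have h2 : ∏ i ∈ Finset.range (T b x), xi q s x i b = ∏ i ∈ Finset.range (T b x),
      ((if b i = true then s else 2 - s) / (1 - (2 * q i - 1) * (1 - s))) := by
    refine Finset.prod_congr rfl fun i hi => ?_
    unfold xi
    rw [if_pos (lt_of_lt_T (Finset.mem_range.1 hi))]
  rw [h2, Finset.prod_div_distrib, prod_T, fl_T h]
  rfl

/-- the main Laplace bound -/
lemma laplace1 {s : ℝ} (hs : 0 < s) (hs1 : s < 1) {x n n0 : ℕ} (hx : n0 ≤ x)
    (hneg : ∀ i, n0 ≤ i → 2 * q i - 1 ≤ 0) (SS : ℝ)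
    (hS : SS = ∑ i ∈ Finset.range n, (2 * q i - 1)) :
    ∫ b, (if x ≤ fl b n then s ^ U b x else 0) ∂(cl q) ≤
      Real.exp (-(SS * (1 - s))) * ((2 - s)⁻¹) ^ x := by
  have hp : ∀ i, 0 < 1 - (2 * q i - 1) * (1 - s) := fun i => den_pos hs hs1 i
  have h1 : ∀ b : ℕ → Bool, (if x ≤ fl b n then s ^ U b x else 0) ≤
      (Real.exp (-(SS * (1 - s))) * ((2 - s)⁻¹) ^ x) * NN q s x n b := by
    intro b
    split_ifs with h
    · rw [NN_eq h]
      set P := ∏ i ∈ Finset.range (T b x), (1 - (2 * q i - 1) * (1 - s)) with hP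
      have hPpos : 0 < P := Finset.prod_pos fun i _ => hp i
      have hPle : P ≤ Real.exp (-(SS * (1 - s))) := by
        have h2 : P ≤ ∏ i ∈ Finset.range n, (1 - (2 * q i - 1) * (1 - s)) := by
          have hT := T_le h
          obtain ⟨k, hk⟩ := Nat.exists_eq_add_of_le hT
          have hTx : x ≤ T b x := by have := U_add h; omega
          rw [hk, Finset.prod_range_add]
          refine le_mul_of_one_le_right hPpos.le ?_
          calc (1:ℝ) = ∏ _i ∈ Finset.range k, (1:ℝ) := by simp
            _ ≤ _ := Finset.prod_le_prod (fun _ _ => zero_le_one) fun i _ => by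
              have := hneg (T b x + i) (by omega)
              nlinarith
        refine h2.trans ?_
        have h3 : ∏ i ∈ Finset.range n, (1 - (2 * q i - 1) * (1 - s)) ≤
            ∏ i ∈ Finset.range n, Real.exp (-((2 * q i - 1) * (1 - s))) := by
          refine Finset.prod_le_prod (fun i _ => (hp i).le) fun i _ => ?_
          have := Real.add_one_le_exp (-((2 * q i - 1) * (1 - s)))
          linarith
        refine h3.trans ?_
        rw [← Real.exp_sum, hS, Finset.sum_neg_distrib, Finset.sum_mul]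
      have h2s : 0 < 2 - s := by linarith
      have h5 : (2 - s)⁻¹ ^ x * (2 - s) ^ x = 1 := by
        rw [← mul_pow, inv_mul_cancel₀ h2s.ne', one_pow]
      calc s ^ U b x = P * (s ^ U b x / P) := by field_simp
        _ ≤ Real.exp (-(SS * (1 - s))) * (s ^ U b x / P) :=
            mul_le_mul_of_nonneg_right hPle (by positivity)
        _ = Real.exp (-(SS * (1 - s))) * ((2 - s)⁻¹ ^ x * (2 - s) ^ x) * (s ^ U b x / P) := by
            rw [h5]; ring
        _ = _ := by ring
    · have := NN_nonneg (q := q) hs hs1 x n b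
      have h2s : 0 < 2 - s := by linarith
      positivity
  have h2 : ∫ b, (if x ≤ fl b n then s ^ U b x else 0) ∂(cl q) ≤
      ∫ b, (Real.exp (-(SS * (1 - s))) * ((2 - s)⁻¹) ^ x) * NN q s x n b ∂(cl q) := by
    refine integral_mono_of_nonneg (Eventually.of_forall fun b => ?_)
      ((NN_dep s x n).integrable.const_mul _) (Eventually.of_forall h1)
    simp only [Pi.zero_apply]
    split_ifs <;> positivity
  refine h2.trans ?_
  rw [integral_const_mul, integral_NN hs hs1, mul_one]

lemma integrable_pow {s : ℝ} (hs : 0 < s) (hs1 : s < 1) (x : ℕ) :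
    Integrable (fun b => s ^ U b x) (cl q) := by
  refine Integrable.of_bound (C := 1) ?_ (Eventually.of_forall fun b => ?_)
  · exact ((measurable_of_countable (fun k : ℕ => s ^ k)).comp (meas_U x)).aestronglyMeasurable
  · rw [Real.norm_of_nonneg (by positivity)]
    exact pow_le_one₀ hs.le hs1.le

lemma laplace2 {s : ℝ} (hs : 0 < s) (hs1 : s < 1) {x n n0 : ℕ} (hx : n0 ≤ x)
    (hneg : ∀ i, n0 ≤ i → 2 * q i - 1 ≤ 0) (SS : ℝ)
    (hS : SS = ∑ i ∈ Finset.range n, (2 * q i - 1)) :
    ∫ b, s ^ U b x ∂(cl q) ≤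
      Real.exp (-(SS * (1 - s))) * ((2 - s)⁻¹) ^ x + s ^ (n - x) * (cl q).real {b | fl b n < x} := by
  have hm : MeasurableSet {b : ℕ → Bool | fl b n < x} := (meas_fl n) (measurableSet_Iio (a := x))
  have h1 : ∀ᵐ b ∂(cl q), s ^ U b x ≤ (if x ≤ fl b n then s ^ U b x else 0) +
      Set.indicator {b | fl b n < x} (fun _ => s ^ (n - x)) b := by
    filter_upwards [ae_reach (q := q)] with b hb
    obtain ⟨m, hm⟩ := hb x
    by_cases h : x ≤ fl b n
    · rw [if_pos h, Set.indicator_of_notMem (by simp; omega), add_zero]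
    · rw [if_neg h, Set.indicator_of_mem (by simp; omega), zero_add]
      refine pow_le_pow_of_le_one hs.le hs1.le ?_
      have h1 := U_add hm
      have h2 := lt_T_of_lt hm (show fl b n < x by omega)
      omega
  have hi1 : Integrable (fun b => if x ≤ fl b n then s ^ U b x else 0) (cl q) := by
    refine (integrable_pow (q := q) hs hs1 x).mono' ?_ (Eventually.of_forall fun b => ?_)
    · refine Measurable.aestronglyMeasurable ?_
      refine Measurable.ite ?_ ((measurable_of_countable (fun k : ℕ => s ^ k)).comp (meas_U x))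
        measurable_const
      exact (meas_fl n) (measurableSet_Ici (a := x))
    · split_ifs
      · rw [Real.norm_of_nonneg (by positivity)]
      · simp; positivity
  have hi2 : Integrable (Set.indicator {b | fl b n < x} (fun _ : ℕ → Bool => s ^ (n - x))) (cl q) :=
    (integrable_const _).indicator hm
  have h2 := integral_mono_ae (integrable_pow (q := q) hs hs1 x) (hi1.add hi2) h1
  simp only [Pi.add_apply] at h2
  rw [integral_add hi1 hi2, integral_indicator hm, setIntegral_const, smul_eq_mul] at h2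
  have h3 := laplace1 (q := q) hs hs1 hx hneg SS hS
  linarith [mul_comm (s ^ (n - x)) ((cl q).real {b | fl b n < x})]

/-- bound valid for all `x` -/
lemma laplace3 {s : ℝ} (hs : 0 < s) (hs1 : s < 1) {x n0 : ℕ} (hx : n0 ≤ x)
    (hneg : ∀ i, n0 ≤ i → 2 * q i - 1 ≤ 0)
    (hS : ∀ n, 0 ≤ ∑ i ∈ Finset.range n, (2 * q i - 1)) :
    ∫ b, s ^ U b x ∂(cl q) ≤ ((2 - s)⁻¹) ^ x := by
  have h2s : 0 < 2 - s := by linarith
  have h1 : ∀ n : ℕ, ∫ b, s ^ U b x ∂(cl q) ≤ ((2 - s)⁻¹) ^ x + 2 ^ x * (7/8) ^ n := by
    intro n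
    refine (laplace2 (q := q) hs hs1 (n := n) hx hneg _ rfl).trans ?_
    have h3 : Real.exp (-((∑ i ∈ Finset.range n, (2 * q i - 1)) * (1 - s))) ≤ 1 := by
      rw [Real.exp_le_one_iff]
      have := mul_nonneg (hS n) (show 0 ≤ 1 - s by linarith)
      linarith
    have h4 : s ^ (n - x) ≤ 1 := pow_le_one₀ hs.le hs1.le
    have h5 := tail_fl (q := q) x n
    have h6 : s ^ (n - x) * (cl q).real {b | fl b n < x} ≤ 2 ^ x * (7/8) ^ n :=
      (mul_le_of_le_one_left measureReal_nonneg h4).trans h5
    have h7 : Real.exp (-((∑ i ∈ Finset.range n, (2 * q i - 1)) * (1 - s))) * ((2 - s)⁻¹) ^ x ≤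
      ((2 - s)⁻¹) ^ x := mul_le_of_le_one_left (by positivity) h3
    linarith
  have h2 : Tendsto (fun n : ℕ => ((2 - s)⁻¹) ^ x + (2:ℝ) ^ x * (7/8) ^ n) atTop
      (𝓝 (((2 - s)⁻¹) ^ x + 2 ^ x * 0)) :=
    ((tendsto_pow_atTop_nhds_zero_of_lt_one (by norm_num) (by norm_num)).const_mul _).const_add _
  rw [mul_zero, add_zero] at h2
  exact ge_of_tendsto' h2 h1

end Pool.Agent.V11320.EW
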