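import Pool.Agent.V11320.EW.Coin

set_option autoImplicit false

open MeasureTheory ProbabilityTheory Filter Topology
open scoped ENNReal

namespace Pool.Agent.V11320.EW

/-- The Bernoulli law. -/
noncomputable def bern (r : ℝ) : Measure Bool :=
  ENNReal.ofReal r • Measure.dirac true + ENNReal.ofReal (1 - r) • Measure.dirac false

/-- `q i` lies in `[1/4, 3/4]` for all `i`. -/
class Ell (q : ℕ → ℝ) : Prop where
  h : ∀ i, 1/4 ≤ q i ∧ q i ≤ 3/4

instance (q : ℕ → ℝ) [Ell q] (i : ℕ) : IsProbabilityMeasure (bern (q i)) := by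
  constructor
  have h := Ell.h (q := q) i
  simp only [bern, Measure.coe_add, Measure.coe_smul, Pi.add_apply, Pi.smul_apply, smul_eq_mul,
    measure_univ, mul_one]
  rw [← ENNReal.ofReal_add (by linarith) (by linarith)]
  simp

/-- The law of a sequence of independent trials with success probabilities `q i`. -/
noncomputable def cl (q : ℕ → ℝ) [Ell q] : Measure (ℕ → Bool) :=
  Measure.infinitePi fun i => bern (q i)

instance (q : ℕ → ℝ) [Ell q] : IsProbabilityMeasure (cl q) := by
  unfold cl; infer_instance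

variable {q : ℕ → ℝ} [Ell q]

lemma integral_bern (i : ℕ) (c : Bool → ℝ) :
    ∫ a, c a ∂(bern (q i)) = q i * c true + (1 - q i) * c false := by
  have h := Ell.h (q := q) i
  unfold bern
  rw [integral_add_measure, integral_smul_measure, integral_smul_measure, integral_dirac,
    integral_dirac, ENNReal.toReal_ofReal (by linarith), ENNReal.toReal_ofReal (by linarith)]
  · simp
  · exact Integrable.of_finite.smul_measure (by simp)
  · exact Integrable.of_finite.smul_measure (by simp)

lemma integral_coord (i : ℕ) (c : Bool → ℝ) :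
    ∫ b, c (b i) ∂(cl q) = q i * c true + (1 - q i) * c false := by
  have h1 : (cl q).map (fun b => b i) = bern (q i) :=
    Measure.infinitePi_map_eval (fun i => bern (q i)) i
  rw [← integral_bern (q := q) i c, ← h1, integral_map (measurable_pi_apply i).aemeasurable]
  exact (measurable_of_countable c).aestronglyMeasurable

/-- `G` depends only on the first `n` coordinates. -/
def Dep {E : Type*} (n : ℕ) (G : (ℕ → Bool) → E) : Prop :=
  ∀ b b', (∀ i < n, b i = b' i) → G b = G b'

lemma indep_head (n : ℕ) :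
    IndepFun (fun (b : ℕ → Bool) (i : Fin n) => b i) (fun b => b n) (cl q) := by
  have hi : iIndepFun (fun (v : ℕ) (t : ℕ → Bool) => t v) (cl q) :=
    iIndepFun_infinitePi (X := fun _ ω => ω) (by fun_prop)
  have hd : Disjoint (Set.Iio n) ({n} : Set ℕ) := by
    rw [Set.disjoint_left]; intro v hv hv'
    simp at hv hv'; omega
  have hle : ∀ v : ℕ, MeasurableSpace.comap (fun t : ℕ → Bool => t v) inferInstance ≤
      (inferInstance : MeasurableSpace (ℕ → Bool)) := fun v => (measurable_pi_apply v).comap_le
  have h := indep_iSup_of_disjoint hle hi hd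
  rw [IndepFun_iff_Indep]
  refine indep_of_indep_of_le_left (indep_of_indep_of_le_right h ?_) ?_
  · exact le_iSup₂_of_le n rfl le_rfl
  · refine Measurable.comap_le ?_
    refine @measurable_pi_lambda _ _ _ (_) _ _ fun i => ?_
    refine Measurable.mono (comap_measurable (fun t : ℕ → Bool => t (i : ℕ))) ?_ le_rfl
    exact le_iSup₂_of_le (i : ℕ) i.2 le_rfl

lemma Dep.factor {E : Type*} {n : ℕ} {G : (ℕ → Bool) → E} (h : Dep n G) :
    ∃ G' : (Fin n → Bool) → E, ∀ b, G b = G' (fun i => b i) := by
  refine ⟨fun r => G fun i => if h : i < n then r ⟨i, h⟩ else false, fun b => ?_⟩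
  refine h _ _ fun i hi => ?_
  simp [hi]

lemma Dep.integrable {n : ℕ} {G : (ℕ → Bool) → ℝ} (h : Dep n G) : Integrable G (cl q) := by
  obtain ⟨G', hG⟩ := h.factor
  have h1 : G = G' ∘ (fun (b : ℕ → Bool) (i : Fin n) => b i) := funext hG
  rw [h1]
  have hm : Measurable (fun (b : ℕ → Bool) (i : Fin n) => b i) := by fun_prop
  have : IsProbabilityMeasure ((cl q).map (fun (b : ℕ → Bool) (i : Fin n) => b i)) :=
    Measure.isProbabilityMeasure_map hm.aemeasurable
  exact (Integrable.of_finite (μ := (cl q).map _) (f := G')).comp_measurable hm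

lemma Dep.mono {E : Type*} {n m : ℕ} {G : (ℕ → Bool) → E} (h : Dep n G) (hnm : n ≤ m) :
    Dep m G := fun b b' hb => h b b' fun i hi => hb i (by omega)

lemma fl_congr {n : ℕ} {b b' : ℕ → Bool} (h : ∀ i < n, b i = b' i) : fl b n = fl b' n := by
  unfold fl
  have : ((Finset.range n).filter fun i => b i = false) =
      ((Finset.range n).filter fun i => b' i = false) := by
    refine Finset.filter_congr fun i hi => ?_
    rw [h i (Finset.mem_range.1 hi)]
  rw [this]

lemma integral_ind {n : ℕ} {G : (ℕ → Bool) → ℝ} (h : Dep n G) (c : Bool → ℝ) :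
    ∫ b, G b * c (b n) ∂(cl q) = (∫ b, G b ∂(cl q)) * (q n * c true + (1 - q n) * c false) := by
  obtain ⟨G', hG⟩ := h.factor
  have hI : IndepFun (fun b : ℕ → Bool => G' (fun i : Fin n => b i)) (fun b => c (b n)) (cl q) :=
    (indep_head (q := q) n).comp (measurable_of_finite G') (measurable_of_countable c)
  rw [← integral_coord (q := q) n c]
  have h1 : (fun b => G b) = fun b : ℕ → Bool => G' (fun i : Fin n => b i) := funext hG
  simp only [hG]
  refine hI.integral_fun_mul_eq_mul_integral ?_ ?_
  · exact ((measurable_of_finite G').comp (by fun_prop)).aestronglyMeasurable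
  · exact ((measurable_of_countable c).comp (measurable_pi_apply n)).aestronglyMeasurable

/-! ### tails -/

lemma half_fl (n : ℕ) : ∫ b, (1/2 : ℝ) ^ fl b n ∂(cl q) ≤ (7/8) ^ n := by
  induction n with
  | zero => simp [fl_zero]
  | succ n ih =>
    have h1 : ∀ b : ℕ → Bool, (1/2 : ℝ) ^ fl b (n+1) =
        (1/2 : ℝ) ^ fl b n * (fun a : Bool => if a = false then 1/2 else 1) (b n) := by
      intro b
      rw [fl_succ]
      by_cases h : b n = false <;> simp [h, pow_succ]
    have hd : Dep n fun b => (1/2 : ℝ) ^ fl b n := fun b b' h => by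
      simp only; rw [fl_congr h]
    simp only [h1]
    have h2 := integral_ind (q := q) hd (fun a : Bool => if a = false then (1/2 : ℝ) else 1)
    simp only at h2 ⊢
    rw [h2, pow_succ]
    have hq := Ell.h (q := q) n
    have h0 : 0 ≤ ∫ b, (1/2 : ℝ) ^ fl b n ∂(cl q) := integral_nonneg fun b => by positivity
    refine mul_le_mul ih ?_ ?_ (by positivity)
    · simp; linarith [hq.2]
    · simp; linarith [hq.1, hq.2]

lemma tail_fl (x n : ℕ) : (cl q).real {b | fl b n < x} ≤ 2 ^ x * (7/8) ^ n := by
  have hm : MeasurableSet {b : ℕ → Bool | fl b n < x} := (meas_fl n) (measurableSet_Iio (a := x))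
  have hd : Dep n fun b => (1/2 : ℝ) ^ fl b n := fun b b' h => by
      simp only; rw [fl_congr h]
  have h1 : (cl q).real {b | fl b n < x} = ∫ b, Set.indicator {b | fl b n < x} (fun _ => (1:ℝ)) b ∂(cl q) := by
    rw [integral_indicator hm]; simp
  have h2 : ∫ b, Set.indicator {b | fl b n < x} (fun _ => (1:ℝ)) b ∂(cl q) ≤
      ∫ b, 2 ^ x * (1/2 : ℝ) ^ fl b n ∂(cl q) := by
    refine integral_mono ((integrable_const _).indicator hm) (hd.integrable.const_mul _) fun b => ?_
    by_cases hb : fl b n < x
    · rw [Set.indicator_of_mem (by exact hb)]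
      simp only
      rw [one_div, inv_pow, ← div_eq_mul_inv, le_div_iff₀ (by positivity), one_mul]
      exact pow_le_pow_right₀ (by norm_num) hb.le
    · rw [Set.indicator_of_notMem (by exact hb)]
      positivity
  rw [h1]
  refine h2.trans ?_
  rw [integral_const_mul]
  exact mul_le_mul_of_nonneg_left (half_fl n) (by positivity)

lemma ae_reach : ∀ᵐ b ∂(cl q), ∀ x, ∃ n, x ≤ fl b n := by
  rw [ae_all_iff]
  intro x
  rw [ae_iff]
  have h1 : ∀ n, (cl q).real {b | ¬ ∃ n, x ≤ fl b n} ≤ 2 ^ x * (7/8) ^ n := by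
    intro n
    refine le_trans (measureReal_mono ?_) (tail_fl x n)
    intro b hb
    simp only [Set.mem_ofPred_eq, not_exists, not_le] at hb ⊢
    exact hb n
  have h2 : Tendsto (fun n : ℕ => (2:ℝ) ^ x * (7/8) ^ n) atTop (𝓝 (2 ^ x * 0)) :=
    (tendsto_pow_atTop_nhds_zero_of_lt_one (by norm_num) (by norm_num)).const_mul _
  rw [mul_zero] at h2
  have h3 := ge_of_tendsto' h2 h1
  have h4 : (cl q).real {b | ¬ ∃ n, x ≤ fl b n} = 0 := le_antisymm h3 measureReal_nonneg
  exact (measureReal_eq_zero_iff).1 h4

end Pool.Agent.V11320.EW
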