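import Pool.Agent.V11320.EW.Env

set_option autoImplicit false

open MeasureTheory ProbabilityTheory Filter Topology
open scoped ENNReal

namespace Pool.Agent.V11320.EW

lemma ss_pow_le (k m : ℕ) : ss k ^ m ≤ Real.exp (-((m : ℝ) / ((k:ℝ) + 6))) := by
  have h1 : ss k ≤ Real.exp (-(1 / ((k:ℝ) + 6))) := by
    have := Real.add_one_le_exp (-(1 / ((k:ℝ) + 6)))
    unfold ss; linarith
  calc ss k ^ m ≤ (Real.exp (-(1 / ((k:ℝ) + 6)))) ^ m := pow_le_pow_left₀ (ss_pos k).le h1 m
    _ = _ := by rw [← Real.exp_nat_mul]; congr 1; field_simp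

/-- error term -/
noncomputable def er (x : ℕ) : ℝ := Real.exp (-(Real.sqrt x / 3))

lemma lap (k x : ℕ) (hx : 32 ≤ x) :
    ∫ b, ss k ^ U b x ∂(cl qq) ≤
      Real.exp (-(SS ((k+6)^2) * (1 / ((k:ℝ)+6)))) * ss (k+1) ^ x + er x := by
  have hs := ss_pos k
  have hs1 := ss_lt k
  have hxr : (32:ℝ) ≤ x := by exact_mod_cast hx
  have hsq : Real.sqrt x * Real.sqrt x = x := Real.mul_self_sqrt (by linarith)
  have hsq1 : 1 ≤ Real.sqrt x := Real.one_le_sqrt.2 (by linarith)
  have h1s : 1 - ss k = 1 / ((k:ℝ)+6) := by unfold ss; ring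
  rcases le_or_gt (2 * x) ((k+6)^2) with h | h
  · have h2 := laplace2 (q := qq) hs hs1 (n := (k+6)^2) hx neg_qq _ rfl
    rw [sum_qq, h1s, ss_inv] at h2
    refine h2.trans (add_le_add le_rfl ?_)
    have h3 : ss k ^ ((k+6)^2 - x) * (cl qq).real {b | fl b ((k+6)^2) < x} ≤
        ss k ^ ((k+6)^2 - x) := mul_le_of_le_one_right (by positivity) measureReal_le_one
    refine h3.trans ((ss_pow_le _ _).trans ?_)
    unfold er
    apply Real.exp_le_exp.2
    have hr : (2:ℝ) * x ≤ ((k:ℝ)+6)^2 := by exact_mod_cast h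
    have hc : (((k+6)^2 - x : ℕ) : ℝ) = ((k:ℝ)+6)^2 - x := by
      rw [Nat.cast_sub (by omega)]; push_cast; ring
    rw [hc]
    have hk : (0:ℝ) < (k:ℝ) + 6 := by positivity
    have h4 : Real.sqrt x ≤ (k:ℝ) + 6 := by
      rw [← Real.sqrt_sq hk.le]
      apply Real.sqrt_le_sqrt; linarith
    have h5 : Real.sqrt x / 3 ≤ (((k:ℝ)+6)^2 - x) / ((k:ℝ) + 6) := by
      rw [le_div_iff₀ hk]
      nlinarith
    linarith
  · have h2 := laplace3 (q := qq) hs hs1 hx neg_qq (fun n => by rw [sum_qq]; exact SS_nonneg n)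
    rw [ss_inv] at h2
    have h3 := ss_pow_le (k+1) x
    have h0 : 0 ≤ Real.exp (-(SS ((k+6)^2) * (1 / ((k:ℝ)+6)))) * ss (k+1) ^ x := by
      have := ss_pos (k+1); positivity
    have h4 : Real.exp (-((x : ℝ) / (((k+1 : ℕ):ℝ) + 6))) ≤ er x := by
      unfold er
      apply Real.exp_le_exp.2
      have hr : ((k:ℝ)+6)^2 < (2:ℝ) * x := by exact_mod_cast h
      have hk : (0:ℝ) < (k:ℝ) + 6 := by positivity
      have h5 : (k:ℝ) + 6 ≤ 2 * Real.sqrt x := by
        by_contra hc
        push Not at hc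
        nlinarith
      have h6 : Real.sqrt x / 3 ≤ (x : ℝ) / (((k+1 : ℕ):ℝ) + 6) := by
        push_cast
        rw [le_div_iff₀ (by linarith)]
        nlinarith
      linarith
    linarith

/-- The Lyapunov function. -/
noncomputable def ff (x : ℕ) : ℝ := ∑' k, aa k * ss k ^ x

lemma ff_summable (x : ℕ) : Summable fun k => aa k * ss k ^ x := by
  refine Summable.of_nonneg_of_le (fun k => ?_) (fun k => ?_) aa_summable
  · have := (aa_pos k).le; have := ss_pos k; positivity
  · exact mul_le_of_le_one_right (aa_pos k).le (pow_le_one₀ (ss_pos k).le (ss_lt k).le)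

lemma ff_nonneg (x : ℕ) : 0 ≤ ff x :=
  tsum_nonneg fun k => by have := (aa_pos k).le; have := ss_pos k; positivity

lemma ff_pos (x : ℕ) : 0 < ff x := by
  have h : 0 < aa 0 * ss 0 ^ x := by have := aa_pos 0; have := ss_pos 0; positivity
  exact h.trans_le ((ff_summable x).le_tsum 0 fun k _ => by
    have := (aa_pos k).le; have := ss_pos k; positivity)

lemma ff_anti : Antitone ff := by
  intro x y h
  refine (ff_summable y).tsum_le_tsum (fun k => ?_) (ff_summable x)
  exact mul_le_mul_of_nonneg_left (pow_le_pow_of_le_one (ss_pos k).le (ss_lt k).le h) (aa_pos k).le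

lemma ff_tendsto : Tendsto ff atTop (𝓝 0) := by
  have h := tendsto_tsum_of_dominated_convergence (𝓕 := atTop) (f := fun (x : ℕ) k => aa k * ss k ^ x)
    (g := fun _ => (0:ℝ)) (bound := aa) aa_summable (fun k => ?_) (Eventually.of_forall fun x k => ?_)
  · have h' : Tendsto (fun x => ∑' k, aa k * ss k ^ x) atTop (𝓝 0) := by simpa using h
    exact h'
  · have := (tendsto_pow_atTop_nhds_zero_of_lt_one (ss_pos k).le (ss_lt k)).const_mul (aa k)
    simpa using this
  · have h1 := (aa_pos k).le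
    have h2 := (ss_pos k).le
    rw [Real.norm_of_nonneg (by positivity)]
    exact mul_le_of_le_one_right h1 (pow_le_one₀ h2 (ss_lt k).le)

lemma er_small : ∀ᶠ x : ℕ in atTop, er x ≤
    aa (x - 6) * (1 / ((((x - 7 : ℕ) : ℝ)+7)^2)) * ss (x - 6) ^ x := by
  have h1 : Tendsto (fun y : ℝ => y ^ 10 * Real.exp (-y)) atTop (𝓝 0) :=
    Real.tendsto_pow_mul_exp_neg_atTop_nhds_zero 10
  have h2 : Tendsto (fun x : ℕ => Real.sqrt (x:ℝ) / 3) atTop atTop :=
    (Real.tendsto_sqrt_atTop.comp tendsto_natCast_atTop_atTop).atTop_div_const (by norm_num)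
  have h3 := (h1.comp h2).eventually (gt_mem_nhds (show (0:ℝ) < Real.exp (-2) / 3^10 by positivity))
  filter_upwards [h3, eventually_ge_atTop 7] with x hx hx7
  simp only [Function.comp] at hx
  have hxr : (7:ℝ) ≤ x := by exact_mod_cast hx7
  obtain ⟨m, rfl⟩ : ∃ m, x = m + 7 := ⟨x - 7, by omega⟩
  have e1 : m + 7 - 6 = m + 1 := by omega
  have e2 : m + 7 - 7 = m := by omega
  rw [e1, e2]
  set y : ℝ := (m:ℝ) + 7 with hy
  have hcast : ((m + 7 : ℕ) : ℝ) = y := by push_cast; rw [hy]
  rw [hcast] at hx hxr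
  unfold er
  rw [hcast]
  have hsq : Real.sqrt y ^ 2 = y := Real.sq_sqrt (by linarith)
  have h10 : (Real.sqrt y / 3) ^ 10 = y ^ 5 / 3 ^ 10 := by
    rw [div_pow, show Real.sqrt y ^ 10 = (Real.sqrt y ^ 2) ^ 5 by ring, hsq]
  rw [h10] at hx
  have hx' : Real.exp (-(Real.sqrt y / 3)) ≤ Real.exp (-2) / y ^ 5 := by
    rw [le_div_iff₀ (by positivity)]
    have h3 : (0:ℝ) < 3 ^ 10 := by norm_num
    have : y ^ 5 / 3 ^ 10 * Real.exp (-(Real.sqrt y / 3)) * 3^10 ≤ Real.exp (-2) / 3^10 * 3^10 :=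
      mul_le_mul_of_nonneg_right hx.le h3.le
    field_simp at this
    linarith
  refine hx'.trans ?_
  -- lower bounds
  have hss : ss (m+1) = 1 - 1 / y := by unfold ss; push_cast; rw [hy]; ring_nf
  have h5 : Real.exp (-2) ≤ ss (m+1) ^ (m+7) := by
    have h6 : Real.exp (-(2 / y)) ≤ ss (m+1) := by
      rw [hss, Real.exp_neg]
      have h7 := Real.add_one_le_exp (2 / y)
      have h8 : 0 < 1 - 1 / y := by
        have : 1 / y < 1 := by rw [div_lt_one (by linarith)]; linarith
        linarith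
      rw [inv_le_comm₀ (Real.exp_pos _) h8]
      refine le_trans ?_ h7
      rw [inv_le_iff_one_le_mul₀ h8]
      have : (2 / y + 1) * (1 - 1 / y) = 1 + 1 / y * (1 - 2 / y) := by field_simp; ring
      rw [this]
      have h9 : 2 / y ≤ 1 := by rw [div_le_one (by linarith)]; linarith
      have : 0 ≤ 1 / y * (1 - 2 / y) := mul_nonneg (by positivity) (by linarith)
      linarith
    calc Real.exp (-2) = Real.exp (-(2 / y)) ^ (m+7) := by
          rw [← Real.exp_nat_mul, hcast]; congr 1; field_simp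
      _ ≤ _ := pow_le_pow_left₀ (Real.exp_pos _).le h6 _
  have h6 : 1 / y ^ 3 ≤ aa (m+1) := by
    rw [aa_eq]
    have ha := one_le_Hn (n := m+1+5) (by omega)
    have hb := one_le_Hn (n := m+1+6) (by omega)
    have ha' : Hn (m+1+5) ≤ y := by
      have := Hn_le (m+1+5); push_cast at this; linarith
    have hb' : Hn (m+1+6) ≤ y := by
      have := Hn_le (m+1+6); push_cast at this; linarith
    have hc : ((m+1 : ℕ) : ℝ) + 6 = y := by push_cast; rw [hy]; ring
    rw [hc]
    apply one_div_le_one_div_of_le (by positivity)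
    calc y * Hn (m+1+5) * Hn (m+1+6) ≤ y * y * y := by
          refine mul_le_mul (mul_le_mul_of_nonneg_left ha' (by linarith)) hb' (by linarith)
            (by positivity)
      _ = y ^ 3 := by ring
  calc Real.exp (-2) / y ^ 5 = 1 / y ^ 3 * (1 / y ^ 2) * Real.exp (-2) := by field_simp
    _ ≤ aa (m+1) * (1 / y ^ 2) * ss (m+1) ^ (m+7) := by
        refine mul_le_mul (mul_le_mul_of_nonneg_right h6 (by positivity)) h5 (Real.exp_pos _).le ?_
        have := (aa_pos (m+1)).le; positivity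

lemma sum_bound (x : ℕ) (hx7 : 7 ≤ x) (he : er x ≤
    aa (x - 6) * (1 / ((((x - 7 : ℕ) : ℝ)+7)^2)) * ss (x - 6) ^ x) :
    ∑' k, (aa (k+1) * (1 - 1 / ((k:ℝ)+7)^2) * ss (k+1) ^ x + aa k * er x) ≤ ff x := by
  have hS := ff_summable x
  have hS1 : Summable fun k => aa (k+1) * ss (k+1) ^ x := (summable_nat_add_iff 1).2 hS
  have hS2 : Summable fun k => aa (k+1) * (1 / ((k:ℝ)+7)^2) * ss (k+1) ^ x := by
    refine Summable.of_nonneg_of_le (fun k => ?_) (fun k => ?_) hS1
    · have := (aa_pos (k+1)).le; have := ss_pos (k+1); positivity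
    · have h1 := (aa_pos (k+1)).le
      have h2 := (ss_pos (k+1)).le
      refine mul_le_mul_of_nonneg_right (mul_le_of_le_one_right h1 ?_) (by positivity)
      rw [div_le_one (by positivity)]
      have := Nat.cast_nonneg (α := ℝ) k
      nlinarith
  have hS3 : Summable fun k => aa k * er x := aa_summable.mul_right _
  have e1 : ∀ k : ℕ, aa (k+1) * (1 - 1 / ((k:ℝ)+7)^2) * ss (k+1) ^ x + aa k * er x =
      (aa (k+1) * ss (k+1) ^ x - aa (k+1) * (1 / ((k:ℝ)+7)^2) * ss (k+1) ^ x) + aa k * er x := by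
    intro k; ring
  simp only [e1]
  rw [(hS1.sub hS2).tsum_add hS3, hS1.tsum_sub hS2, tsum_mul_right]
  have h1 : ff x = aa 0 * ss 0 ^ x + ∑' k, aa (k+1) * ss (k+1) ^ x := hS.tsum_eq_zero_add
  have h2 : 0 ≤ aa 0 * ss 0 ^ x := by have := (aa_pos 0).le; have := ss_pos 0; positivity
  have h3 := hS2.le_tsum (x - 7) fun k _ => by
    have := (aa_pos (k+1)).le; have := ss_pos (k+1); positivity
  have h4 : x - 7 + 1 = x - 6 := by omega
  rw [h4] at h3
  have h5 : (∑' k, aa k) * er x ≤ er x :=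
    mul_le_of_le_one_left (Real.exp_pos _).le tsum_aa_le
  linarith

/-- The Lyapunov inequality. -/
lemma lyap : ∀ᶠ x : ℕ in atTop,
    ∫⁻ b, ENNReal.ofReal (ff (U b x)) ∂(cl qq) ≤ ENNReal.ofReal (ff x) := by
  filter_upwards [er_small, eventually_ge_atTop 32] with x hx hx32
  have h1 : ∀ b : ℕ → Bool, ENNReal.ofReal (ff (U b x)) =
      ∑' k, ENNReal.ofReal (aa k * ss k ^ U b x) := by
    intro b
    unfold ff
    exact ENNReal.ofReal_tsum_of_nonneg
      (fun k => by have := (aa_pos k).le; have := ss_pos k; positivity) (ff_summable _)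
  simp only [h1]
  rw [lintegral_tsum]
  · have h2 : ∀ k, ∫⁻ b, ENNReal.ofReal (aa k * ss k ^ U b x) ∂(cl qq) ≤
        ENNReal.ofReal (aa (k+1) * (1 - 1 / ((k:ℝ)+7)^2) * ss (k+1) ^ x + aa k * er x) := by
      intro k
      have hi := (integrable_pow (q := qq) (ss_pos k) (ss_lt k) x).const_mul (aa k)
      rw [← ofReal_integral_eq_lintegral_ofReal hi (Eventually.of_forall fun b => by
        have := (aa_pos k).le; have := ss_pos k
        simp only [Pi.zero_apply]; positivity)]
      apply ENNReal.ofReal_le_ofReal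
      rw [integral_const_mul]
      have h3 := mul_le_mul_of_nonneg_left (lap k x hx32) (aa_pos k).le
      have h4 := mul_le_mul_of_nonneg_right (key k)
        (show 0 ≤ ss (k+1) ^ x by have := ss_pos (k+1); positivity)
      refine h3.trans ?_
      rw [mul_add, ← mul_assoc]
      linarith
    refine (ENNReal.tsum_le_tsum h2).trans ?_
    rw [← ENNReal.ofReal_tsum_of_nonneg]
    · exact ENNReal.ofReal_le_ofReal (sum_bound x (by omega) hx)
    · intro k
      have h3 := (aa_pos (k+1)).le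
      have h4 := ss_pos (k+1)
      have h5 := (aa_pos k).le
      have h6 : 0 ≤ 1 - 1 / ((k:ℝ)+7)^2 := by
        have : 1 / ((k:ℝ)+7)^2 ≤ 1 := by
          rw [div_le_one (by positivity)]
          have := Nat.cast_nonneg (α := ℝ) k
          nlinarith
        linarith
      have h7 : 0 ≤ er x := (Real.exp_pos _).le
      positivity
    · refine Summable.add ?_ (aa_summable.mul_right _)
      refine Summable.of_nonneg_of_le (fun k => ?_) (fun k => ?_)
        ((summable_nat_add_iff 1).2 (ff_summable x))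
      · have h3 := (aa_pos (k+1)).le
        have h4 := ss_pos (k+1)
        have h6 : 0 ≤ 1 - 1 / ((k:ℝ)+7)^2 := by
          have : 1 / ((k:ℝ)+7)^2 ≤ 1 := by
            rw [div_le_one (by positivity)]
            have := Nat.cast_nonneg (α := ℝ) k
            nlinarith
          linarith
        positivity
      · have h3 := (aa_pos (k+1)).le
        have h4 := ss_pos (k+1)
        refine mul_le_mul_of_nonneg_right (mul_le_of_le_one_right h3 ?_) (by positivity)
        have : 0 ≤ 1 / ((k:ℝ)+7)^2 := by positivity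
        linarith
  · intro k
    refine Measurable.aemeasurable ?_
    exact (measurable_of_countable (fun n : ℕ => ENNReal.ofReal (aa k * ss k ^ n))).comp (meas_U x)

end Pool.Agent.V11320.EW
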