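import Pool.Agent.V11320.EW.Law

set_option autoImplicit false
set_option linter.unusedSectionVars false

open MeasureTheory ProbabilityTheory Filter Topology
open scoped ENNReal

namespace Pool.Agent.V11320.EW

variable {q : ℕ → ℝ} [Ell q]

/-- `min n (T b x)` -/
noncomputable def st (b : ℕ → Bool) (x n : ℕ) : ℕ := if fl b n < x then n else T b x

lemma st_of_reach {b : ℕ → Bool} {x n : ℕ} (h : x ≤ fl b n) : st b x n = T b x := by
  unfold st; rw [if_neg (by omega)]

lemma stop_sum (b : ℕ → Bool) (x n : ℕ) (g : ℕ → ℝ) :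
    ∑ i ∈ Finset.range n, (if fl b i < x then g i else 0) = ∑ i ∈ Finset.range (st b x n), g i := by
  unfold st
  split_ifs with h
  · refine Finset.sum_congr rfl fun i hi => ?_
    rw [if_pos ((fl_mono b (Finset.mem_range.1 hi).le).trans_lt h)]
  · push Not at h
    have hT := T_le h
    rw [← Finset.sum_filter]
    congr 1
    ext i
    simp only [Finset.mem_filter, Finset.mem_range]
    constructor
    · rintro ⟨_, h2⟩; exact lt_T_of_lt h h2
    · intro h2; exact ⟨by omega, lt_of_lt_T h2⟩

lemma fl_st (b : ℕ → Bool) (x n : ℕ) : fl b (st b x n) ≤ x := by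
  unfold st
  split_ifs with h
  · exact h.le
  · push Not at h; rw [fl_T h]

lemma sum_pm (b : ℕ → Bool) (n : ℕ) :
    ∑ i ∈ Finset.range n, (if b i = true then (1:ℝ) else -1) = tr b n - fl b n := by
  induction n with
  | zero => simp [tr_zero, fl_zero]
  | succ n ih =>
    rw [Finset.sum_range_succ, ih, tr_succ, fl_succ]
    cases h : b n <;> simp <;> ring

/-- the stopped martingale -/
noncomputable def MM (q : ℕ → ℝ) (x n : ℕ) (b : ℕ → Bool) : ℝ :=
  ∑ i ∈ Finset.range n, (if fl b i < x then ((if b i = true then (1:ℝ) else -1) - (2 * q i - 1)) else 0)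

/-- the stopped compensator -/
noncomputable def CC (q : ℕ → ℝ) (x n : ℕ) (b : ℕ → Bool) : ℝ :=
  ∑ i ∈ Finset.range n, (if fl b i < x then (2 * q i - 1) else 0)

noncomputable def QQ (q : ℕ → ℝ) (x n : ℕ) (b : ℕ → Bool) : ℝ :=
  ∑ i ∈ Finset.range n, (if fl b i < x then (1 - (2 * q i - 1)^2) else 0)

lemma MM_dep (x n : ℕ) : Dep n (MM q x n) := by
  intro b b' hb
  unfold MM
  refine Finset.sum_congr rfl fun i hi => ?_
  have hi := Finset.mem_range.1 hi
  rw [fl_congr (n := i) (fun j hj => hb j (by omega)), hb i hi]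

lemma CC_dep (x n : ℕ) : Dep n (CC q x n) := by
  intro b b' hb
  unfold CC
  refine Finset.sum_congr rfl fun i hi => ?_
  have hi := Finset.mem_range.1 hi
  rw [fl_congr (n := i) (fun j hj => hb j (by omega))]

lemma QQ_dep (x n : ℕ) : Dep n (QQ q x n) := by
  intro b b' hb
  unfold QQ
  refine Finset.sum_congr rfl fun i hi => ?_
  have hi := Finset.mem_range.1 hi
  rw [fl_congr (n := i) (fun j hj => hb j (by omega))]

lemma MM_add_CC (x n : ℕ) (b : ℕ → Bool) :
    MM q x n b + CC q x n b = tr b (st b x n) - fl b (st b x n) := by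
  rw [← sum_pm, ← stop_sum]
  unfold MM CC
  rw [← Finset.sum_add_distrib]
  refine Finset.sum_congr rfl fun i _ => ?_
  split_ifs <;> ring

lemma CC_eq (x n : ℕ) (b : ℕ → Bool) :
    CC q x n b = ∑ i ∈ Finset.range (st b x n), (2 * q i - 1) := by
  unfold CC; rw [stop_sum]

lemma QQ_eq (x n : ℕ) (b : ℕ → Bool) :
    QQ q x n b = ∑ i ∈ Finset.range (st b x n), (1 - (2 * q i - 1)^2) := by
  unfold QQ; rw [stop_sum]

lemma integral_MM (x n : ℕ) : ∫ b, MM q x n b ∂(cl q) = 0 := by
  induction n with
  | zero => simp [MM]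
  | succ n ih =>
    set c : Bool → ℝ := fun a => (if a = true then (1:ℝ) else -1) - (2 * q n - 1) with hc
    have hd : Dep n fun b : ℕ → Bool => (if fl b n < x then (1:ℝ) else 0) := by
      intro b b' hb
      simp only
      rw [fl_congr hb]
    have h1 : ∀ b, MM q x (n+1) b = MM q x n b + (if fl b n < x then (1:ℝ) else 0) * c (b n) := by
      intro b
      unfold MM
      rw [Finset.sum_range_succ, hc]
      by_cases hx : fl b n < x <;> simp [hx]
    have hd2 : Dep (n+1) fun b : ℕ → Bool => (if fl b n < x then (1:ℝ) else 0) * c (b n) := by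
      intro b b' hb
      simp only
      rw [fl_congr (n := n) (fun i hi => hb i (by omega)), hb n (by omega)]
    have h2 : q n * c true + (1 - q n) * c false = 0 := by simp [hc]; ring
    simp only [h1]
    rw [integral_add (MM_dep x n).integrable hd2.integrable, ih, integral_ind hd, h2]
    ring

lemma integral_MM_sq (x n : ℕ) : ∫ b, (MM q x n b)^2 ∂(cl q) = ∫ b, QQ q x n b ∂(cl q) := by
  induction n with
  | zero => simp [MM, QQ]
  | succ n ih =>
    set c : Bool → ℝ := fun a => (if a = true then (1:ℝ) else -1) - (2 * q n - 1) with hc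
    have hd : Dep n fun b : ℕ → Bool => (if fl b n < x then (1:ℝ) else 0) := by
      intro b b' hb
      simp only
      rw [fl_congr hb]
    have hdM : Dep n fun b : ℕ → Bool => 2 * MM q x n b * (if fl b n < x then (1:ℝ) else 0) := by
      intro b b' hb
      simp only
      rw [fl_congr hb, MM_dep x n b b' hb]
    have hdM2 : Dep n fun b : ℕ → Bool => (MM q x n b)^2 := by
      intro b b' hb
      simp only
      rw [MM_dep x n b b' hb]
    have h1 : ∀ b, (MM q x (n+1) b)^2 = (MM q x n b)^2 +
        ((2 * MM q x n b * (if fl b n < x then (1:ℝ) else 0)) * c (b n) +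
          (if fl b n < x then (1:ℝ) else 0) * (c (b n))^2) := by
      intro b
      have : MM q x (n+1) b = MM q x n b + (if fl b n < x then (1:ℝ) else 0) * c (b n) := by
        unfold MM
        rw [Finset.sum_range_succ, hc]
        by_cases hx : fl b n < x <;> simp [hx]
      rw [this]
      split_ifs <;> ring
    have hq1 : ∀ b, QQ q x (n+1) b = QQ q x n b +
        (if fl b n < x then (1:ℝ) else 0) * (1 - (2 * q n - 1)^2) := by
      intro b
      unfold QQ
      rw [Finset.sum_range_succ]
      split_ifs <;> simp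
    have hd2 : Dep (n+1) fun b : ℕ → Bool =>
        (2 * MM q x n b * (if fl b n < x then (1:ℝ) else 0)) * c (b n) := by
      intro b b' hb
      simp only
      rw [fl_congr (n := n) (fun i hi => hb i (by omega)), hb n (by omega),
        MM_dep x n b b' (fun i hi => hb i (by omega))]
    have hd3 : Dep (n+1) fun b : ℕ → Bool => (if fl b n < x then (1:ℝ) else 0) * (c (b n))^2 := by
      intro b b' hb
      simp only
      rw [fl_congr (n := n) (fun i hi => hb i (by omega)), hb n (by omega)]
    have h2 : q n * c true + (1 - q n) * c false = 0 := by simp [hc]; ring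
    have h3 : q n * (c true)^2 + (1 - q n) * (c false)^2 = 1 - (2 * q n - 1)^2 := by
      simp [hc]; ring
    simp only [h1, hq1]
    have h4 := integral_ind (q := q) hd (fun a => (c a)^2)
    have h23 : Integrable (fun b : ℕ → Bool =>
        (2 * MM q x n b * (if fl b n < x then (1:ℝ) else 0)) * c (b n) +
          (if fl b n < x then (1:ℝ) else 0) * (c (b n))^2) (cl q) :=
      hd2.integrable.add hd3.integrable
    rw [integral_add hdM2.integrable h23,
      integral_add hd2.integrable hd3.integrable, ih, integral_ind hdM, h2, h4, h3,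
      integral_add (QQ_dep x n).integrable (hd.integrable.mul_const _), integral_mul_const]
    ring

/-- mean of `U` in an environment with nonpositive total drifts -/
lemma mean_le (hS : ∀ n, ∑ i ∈ Finset.range n, (2 * q i - 1) ≤ 0) (x : ℕ) :
    ∫⁻ b, (U b x : ℝ≥0∞) ∂(cl q) ≤ x := by
  have hst : ∀ n, Dep n fun b => ((tr b (st b x n) : ℕ) : ℝ) := by
    intro n b b' hb
    simp only
    have h1 : (∑ i ∈ Finset.range n, (if fl b i < x then (if b i = true then (1:ℝ) else 0) else 0)) =
      ∑ i ∈ Finset.range n, (if fl b' i < x then (if b' i = true then (1:ℝ) else 0) else 0) := by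
      refine Finset.sum_congr rfl fun i hi => ?_
      have hi := Finset.mem_range.1 hi
      rw [fl_congr (n := i) (fun j hj => hb j (by omega)), hb i hi]
    rw [stop_sum, stop_sum] at h1
    have h2 : ∀ (b : ℕ → Bool) m, ∑ i ∈ Finset.range m, (if b i = true then (1:ℝ) else 0) = tr b m := by
      intro b m; unfold tr; rw [Finset.sum_boole]
    rw [h2, h2] at h1
    exact h1
  have h1 : ∀ n, ∫⁻ b, (tr b (st b x n) : ℝ≥0∞) ∂(cl q) ≤ x := by
    intro n
    have e1 : ∀ b : ℕ → Bool, (tr b (st b x n) : ℝ≥0∞) = ENNReal.ofReal ((tr b (st b x n) : ℕ) : ℝ) := by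
      intro b; rw [ENNReal.ofReal_natCast]
    simp only [e1]
    rw [← ofReal_integral_eq_lintegral_ofReal (hst n).integrable
      (Eventually.of_forall fun b => by simp)]
    rw [← ENNReal.ofReal_natCast]
    apply ENNReal.ofReal_le_ofReal
    have h2 : ∫ b, ((tr b (st b x n) : ℕ) : ℝ) ∂(cl q) ≤ ∫ b, (MM q x n b + (x:ℝ)) ∂(cl q) := by
      refine integral_mono (hst n).integrable ((MM_dep x n).integrable.add (integrable_const _))
        fun b => ?_
      have h3 := MM_add_CC (q := q) x n b
      have h4 := hS (st b x n)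
      rw [← CC_eq] at h4
      have h5 : (fl b (st b x n) : ℝ) ≤ x := by exact_mod_cast fl_st b x n
      simp only
      linarith
    refine h2.trans ?_
    rw [integral_add (MM_dep x n).integrable (integrable_const _), integral_MM]
    simp
  have h2 : ∫⁻ b, (U b x : ℝ≥0∞) ∂(cl q) ≤
      ∫⁻ b, liminf (fun n => (tr b (st b x n) : ℝ≥0∞)) atTop ∂(cl q) := by
    refine lintegral_mono_ae ?_
    filter_upwards [ae_reach (q := q)] with b hb
    obtain ⟨m, hm⟩ := hb x
    have h3 : Tendsto (fun n => (tr b (st b x n) : ℝ≥0∞)) atTop (𝓝 (U b x : ℝ≥0∞)) := by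
      refine tendsto_const_nhds.congr' ?_
      filter_upwards [eventually_ge_atTop m] with n hn
      rw [st_of_reach (hm.trans (fl_mono b hn))]
      rfl
    rw [h3.liminf_eq]
  refine h2.trans (lintegral_liminf_le' (fun n => ?_) |>.trans ?_)
  · have := (hst n).integrable (q := q)
    have h4 := this.aestronglyMeasurable.aemeasurable.ennreal_ofReal
    refine h4.congr (Eventually.of_forall fun b => ?_)
    simp
  · refine liminf_le_of_le (by isBoundedDefault) fun a ha => ?_
    obtain ⟨n, hn⟩ := ha.exists
    exact hn.trans (h1 n)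

end Pool.Agent.V11320.EW
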