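import Pool.Agent.V11320.EW.Lyap
import Pool.Agent.V11320.EW.Mom

set_option autoImplicit false
set_option linter.unusedSectionVars false

open MeasureTheory ProbabilityTheory Filter Topology
open scoped ENNReal

namespace Pool.Agent.V11320.EW

variable {q : ℕ → ℝ} [Ell q]

/-- iid stacks indexed by `ℕ` -/
noncomputable def SM (q : ℕ → ℝ) [Ell q] : Measure (ℕ → ℕ → Bool) :=
  Measure.infinitePi fun _ => cl q

instance : IsProbabilityMeasure (SM q) := by unfold SM; infer_instance

/-- the branching process -/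
noncomputable def W (σ : ℕ → ℕ → Bool) (k : ℕ) : ℕ → ℕ
  | 0 => k
  | n+1 => U (σ n) (W σ k n)

lemma meas_W (k n : ℕ) : Measurable fun σ : ℕ → ℕ → Bool => W σ k n := by
  induction n with
  | zero => exact measurable_const
  | succ n ih =>
    exact meas_U2.comp ((measurable_pi_apply n).prodMk ih)

lemma W_congr {k n : ℕ} {σ σ' : ℕ → ℕ → Bool} (h : ∀ i < n, σ i = σ' i) : W σ k n = W σ' k n := by
  induction n with
  | zero => rfl
  | succ n ih =>
    show U (σ n) (W σ k n) = U (σ' n) (W σ' k n)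
    rw [ih fun i hi => h i (by omega), h n (by omega)]

lemma indep_stack (n : ℕ) :
    IndepFun (fun (b : ℕ → ℕ → Bool) (i : Fin n) => b i) (fun b => b n) (SM q) := by
  have hi : iIndepFun (fun (v : ℕ) (t : ℕ → ℕ → Bool) => t v) (SM q) :=
    iIndepFun_infinitePi (X := fun _ ω => ω) (by fun_prop)
  have hd : Disjoint (Set.Iio n) ({n} : Set ℕ) := by
    rw [Set.disjoint_left]; intro v hv hv'
    simp at hv hv'; omega
  have hle : ∀ v : ℕ, MeasurableSpace.comap (fun t : ℕ → ℕ → Bool => t v) inferInstance ≤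
      (inferInstance : MeasurableSpace (ℕ → ℕ → Bool)) := fun v => (measurable_pi_apply v).comap_le
  have h := indep_iSup_of_disjoint hle hi hd
  rw [IndepFun_iff_Indep]
  refine indep_of_indep_of_le_left (indep_of_indep_of_le_right h ?_) ?_
  · exact le_iSup₂_of_le n rfl le_rfl
  · refine Measurable.comap_le ?_
    refine @measurable_pi_lambda _ _ _ (_) _ _ fun i => ?_
    refine Measurable.mono (comap_measurable (fun t : ℕ → ℕ → Bool => t (i : ℕ))) ?_ le_rfl
    exact le_iSup₂_of_le (i : ℕ) i.2 le_rfl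

lemma step (k n : ℕ) {G : ℕ → (ℕ → Bool) → ℝ≥0∞} (hG : ∀ v, Measurable (G v)) :
    ∫⁻ σ, G (W σ k n) (σ n) ∂(SM q) = ∫⁻ σ, (∫⁻ b, G (W σ k n) b ∂(cl q)) ∂(SM q) := by
  set N : (ℕ → ℕ → Bool) → ℕ := fun σ => W σ k n with hN
  have hNm : Measurable N := meas_W k n
  have hInd : IndepFun N (fun σ => σ n) (SM q) := by
    set ext : (Fin n → ℕ → Bool) → (ℕ → ℕ → Bool) := fun r i =>
      if h : i < n then r ⟨i, h⟩ else fun _ => false with hext
    have hextm : Measurable ext := by
      refine measurable_pi_lambda _ fun i => ?_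
      by_cases h : i < n
      · simp only [hext, h, dif_pos]
        exact measurable_pi_apply _
      · simp only [hext, h, dif_neg, not_false_eq_true]
        exact measurable_const
    have h1 : N = (N ∘ ext) ∘ (fun (b : ℕ → ℕ → Bool) (i : Fin n) => b i) := by
      funext σ
      simp only [Function.comp, hN]
      refine W_congr fun i hi => ?_
      simp [hext, hi]
    rw [h1]
    exact (indep_stack (q := q) n).comp (hNm.comp hextm) measurable_id
  have hmap := (indepFun_iff_map_prod_eq_prod_map_map hNm.aemeasurable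
    (measurable_pi_apply (X := fun _ : ℕ => ℕ → Bool) n).aemeasurable).1 hInd
  have hGm : Measurable fun p : ℕ × (ℕ → Bool) => G p.1 p.2 :=
    measurable_from_prod_countable_right hG
  have hev : (SM q).map (fun σ => σ n) = cl q :=
    Measure.infinitePi_map_eval (fun _ : ℕ => cl q) n
  rw [hev] at hmap
  have h2 : ∫⁻ σ, G (N σ) (σ n) ∂(SM q) =
      ∫⁻ p, G p.1 p.2 ∂((SM q).map fun σ => (N σ, σ n)) := by
    rw [lintegral_map hGm (hNm.prodMk (measurable_pi_apply n))]
  have : IsProbabilityMeasure ((SM q).map N) := Measure.isProbabilityMeasure_map hNm.aemeasurable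
  rw [h2, hmap, lintegral_prod _ hGm.aemeasurable, lintegral_map (measurable_of_countable _) hNm]

/-- superharmonic functions -/
lemma super (k : ℕ) {F : ℕ → ℝ≥0∞} (hF : ∀ v, ∫⁻ b, F (U b v) ∂(cl q) ≤ F v) (n : ℕ) :
    ∫⁻ σ, F (W σ k n) ∂(SM q) ≤ F k := by
  induction n with
  | zero => simp [W]
  | succ n ih =>
    have h := step (q := q) k n (G := fun v b => F (U b v))
      (fun v => (measurable_of_countable F).comp (meas_U v))
    have h2 : ∫⁻ σ, F (W σ k (n+1)) ∂(SM q) = ∫⁻ σ, F (U (σ n) (W σ k n)) ∂(SM q) := rfl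
    rw [h2, h]
    exact (lintegral_mono fun σ => hF _).trans ih

lemma W_zero_succ {σ : ℕ → ℕ → Bool} {k n m : ℕ} (h : W σ k n = 0) (hnm : n ≤ m) : W σ k m = 0 := by
  induction m, hnm using Nat.le_induction with
  | base => exact h
  | succ m _ ih => show U (σ m) (W σ k m) = 0; rw [ih, U_zero]

lemma dies_zero : (SM qq) {σ | ∀ k, ∃ n, W σ k n = 0} = 0 := by
  obtain ⟨x0, hx0⟩ := eventually_atTop.1 lyap
  set F : ℕ → ℝ≥0∞ := fun v => ENNReal.ofReal (ff (max v x0)) with hF
  have hsup : ∀ v, ∫⁻ b, F (U b v) ∂(cl qq) ≤ F v := by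
    intro v
    rcases le_or_gt x0 v with h | h
    · have h1 : F v = ENNReal.ofReal (ff v) := by simp only [hF]; rw [max_eq_left h]
      rw [h1]
      refine le_trans (lintegral_mono fun b => ?_) (hx0 v h)
      exact ENNReal.ofReal_le_ofReal (ff_anti (le_max_left _ _))
    · have h1 : F v = ENNReal.ofReal (ff x0) := by simp only [hF]; rw [max_eq_right h.le]
      rw [h1]
      calc ∫⁻ b, F (U b v) ∂(cl qq) ≤ ∫⁻ b, ENNReal.ofReal (ff x0) ∂(cl qq) :=
            lintegral_mono fun b => ENNReal.ofReal_le_ofReal (ff_anti (le_max_right _ _))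
        _ = _ := by simp
  have hF0 : F 0 = ENNReal.ofReal (ff x0) := by simp only [hF]; rw [max_eq_right (Nat.zero_le _)]
  have hF0pos : F 0 ≠ 0 := by
    rw [hF0]; simp; exact ff_pos x0
  -- bound for each k
  have hk : ∀ k, F 0 * (SM qq) {σ | ∀ k, ∃ n, W σ k n = 0} ≤ F k := by
    intro k
    have h1 : (SM qq) {σ | ∀ k, ∃ n, W σ k n = 0} ≤ (SM qq) (⋃ n, {σ | W σ k n = 0}) := by
      refine measure_mono fun σ hσ => ?_
      obtain ⟨n, hn⟩ := hσ k
      exact Set.mem_iUnion.2 ⟨n, hn⟩
    have hmono : Monotone fun n => {σ : ℕ → ℕ → Bool | W σ k n = 0} := by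
      intro n m hnm σ hσ
      exact W_zero_succ hσ hnm
    rw [hmono.measure_iUnion] at h1
    refine (mul_le_mul_right h1 _).trans ?_
    rw [ENNReal.mul_iSup]
    refine iSup_le fun n => ?_
    refine le_trans ?_ (super (q := qq) k hsup n)
    have h2 := mul_meas_ge_le_lintegral₀ (μ := SM qq) (f := fun σ => F (W σ k n))
      ((measurable_of_countable F).comp (meas_W k n)).aemeasurable (F 0)
    refine le_trans (mul_le_mul_right (measure_mono fun σ hσ => ?_) _) h2
    simp only [Set.mem_ofPred_eq] at hσ ⊢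
    rw [hσ]
  have hlim : Tendsto F atTop (𝓝 0) := by
    have h1 : Tendsto (fun v : ℕ => max v x0) atTop atTop :=
      tendsto_atTop_mono (fun v => le_max_left v x0) tendsto_id
    have h2 := ENNReal.tendsto_ofReal (ff_tendsto.comp h1)
    simpa using h2
  have h3 := ge_of_tendsto' hlim hk
  have h4 : F 0 * (SM qq) {σ | ∀ k, ∃ n, W σ k n = 0} = 0 := le_antisymm h3 zero_le
  rcases mul_eq_zero.1 h4 with h | h
  · exact absurd h hF0pos
  · exact h

lemma cyl_false (v : ℕ) : ENNReal.ofReal ((1/4)^v) ≤ (cl q) {b | U b v = 0} := by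
  have h1 : (cl q) (Set.pi (Finset.range v : Set ℕ) fun _ => {false}) =
      ∏ i ∈ Finset.range v, (bern (q i)) {false} :=
    Measure.infinitePi_pi (μ := fun i => bern (q i)) (fun i _ => measurableSet_singleton _)
  have h2 : ENNReal.ofReal ((1/4)^v) ≤ ∏ i ∈ Finset.range v, (bern (q i)) {false} := by
    have : ENNReal.ofReal ((1/4)^v) = ∏ _i ∈ Finset.range v, ENNReal.ofReal (1/4) := by
      rw [Finset.prod_const, Finset.card_range, ENNReal.ofReal_pow (by norm_num)]
    rw [this]
    refine Finset.prod_le_prod' fun i _ => ?_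
    have hq := Ell.h (q := q) i
    simp only [bern, Measure.coe_add, Measure.coe_smul, Pi.add_apply, Pi.smul_apply, smul_eq_mul]
    rw [Measure.dirac_apply' _ (measurableSet_singleton _),
      Measure.dirac_apply' _ (measurableSet_singleton _)]
    simp only [Set.mem_singleton_iff, Bool.true_eq_false, not_false_eq_true,
      Set.indicator_of_notMem, mul_zero, zero_add, Set.indicator_of_mem, Pi.one_apply, mul_one]
    apply ENNReal.ofReal_le_ofReal
    linarith [hq.2]
  rw [← h1] at h2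
  refine h2.trans (measure_mono fun b hb => ?_)
  have hb' : ∀ i < v, b i = false := fun i hi => hb i (by simpa using hi)
  have hfl : ∀ n ≤ v, fl b n = n := by
    intro n hn
    induction n with
    | zero => exact fl_zero b
    | succ n ih => rw [fl_succ, ih (by omega), hb' n (by omega)]; simp
  have hv : v ≤ fl b v := by rw [hfl v le_rfl]
  have hT := T_le hv
  have h3 := U_add hv
  show U b v = 0
  omega

lemma ext_zero (hS : ∀ n, ∑ i ∈ Finset.range n, (2 * q i - 1) ≤ 0) (k : ℕ) :
    (SM q) {σ | ∀ n, W σ k n ≠ 0} = 0 := by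
  set P := SM q with hP
  have hmW : ∀ n, Measurable fun σ : ℕ → ℕ → Bool => W σ k n := meas_W k
  set u : ℕ → ℝ := fun n => P.real {σ | W σ k n ≠ 0} with hu
  set ul := P.real {σ | ∀ n, W σ k n ≠ 0} with hul
  have hms : ∀ n, MeasurableSet {σ : ℕ → ℕ → Bool | W σ k n ≠ 0} := fun n =>
    (hmW n) (measurableSet_singleton 0).compl
  have hanti : ∀ n, u (n+1) ≤ u n := fun n => measureReal_mono fun σ hσ h =>
    hσ (W_zero_succ h (Nat.le_succ n))
  have hulu : ∀ n, ul ≤ u n := fun n => measureReal_mono fun σ hσ => hσ n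
  have hmean : ∀ n, ∫⁻ σ, (W σ k n : ℝ≥0∞) ∂P ≤ k :=
    fun n => super (q := q) k (F := fun v => (v : ℝ≥0∞)) (mean_le hS) n
  -- Markov
  have hmark : ∀ n K : ℕ, P.real {σ | K + 1 ≤ W σ k n} ≤ (k : ℝ) / (K + 1) := by
    intro n K
    have h1 := mul_meas_ge_le_lintegral₀ (μ := P) (f := fun σ => (W σ k n : ℝ≥0∞))
      ((measurable_of_countable (fun v : ℕ => (v : ℝ≥0∞))).comp (hmW n)).aemeasurable
      ((K + 1 : ℕ) : ℝ≥0∞)
    have h2 := h1.trans (hmean n)
    have h3 : {σ : ℕ → ℕ → Bool | ((K + 1 : ℕ) : ℝ≥0∞) ≤ (W σ k n : ℝ≥0∞)} =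
        {σ | K + 1 ≤ W σ k n} := by
      ext σ; simp only [Set.mem_ofPred_eq]; exact Nat.cast_le
    rw [h3] at h2
    have h4 := ENNReal.toReal_mono (by simp) h2
    rw [ENNReal.toReal_mul] at h4
    simp only [ENNReal.toReal_natCast] at h4
    rw [le_div_iff₀ (by positivity)]
    push_cast at h4
    rw [mul_comm]
    exact h4
  -- one step
  have hstep : ∀ n K : ℕ, (1/4 : ℝ)^K * (u n - (k : ℝ) / (K+1)) ≤ u n - u (n+1) := by
    intro n K
    have h1 := step (q := q) k n
      (G := fun v b => if v ≠ 0 ∧ U b v = 0 then (1 : ℝ≥0∞) else 0) (fun v => by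
        by_cases hv : v ≠ 0
        · simp only [hv, ne_eq, not_false_eq_true, true_and]
          exact Measurable.ite ((meas_U v) (measurableSet_singleton 0)) measurable_const
            measurable_const
        · simp only [hv, false_and, if_false]; exact measurable_const)
    have hA : MeasurableSet {σ : ℕ → ℕ → Bool | W σ k n ≠ 0 ∧ W σ k (n+1) = 0} :=
      (hms n).inter ((hmW (n+1)) (measurableSet_singleton 0))
    have h2 : ∫⁻ σ, (if W σ k n ≠ 0 ∧ U (σ n) (W σ k n) = 0 then (1 : ℝ≥0∞) else 0) ∂P =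
        P {σ | W σ k n ≠ 0 ∧ W σ k (n+1) = 0} := by
      rw [← lintegral_indicator_one hA]
      refine lintegral_congr fun σ => ?_
      simp only [Set.indicator, Set.mem_ofPred_eq, Pi.one_apply]
      rfl
    have h3 : ENNReal.ofReal ((1/4)^K) * P {σ | W σ k n ≠ 0 ∧ W σ k n ≤ K} ≤
        ∫⁻ σ, (∫⁻ b, (if W σ k n ≠ 0 ∧ U b (W σ k n) = 0 then (1 : ℝ≥0∞) else 0) ∂(cl q)) ∂P := by
      have hB : MeasurableSet {σ : ℕ → ℕ → Bool | W σ k n ≠ 0 ∧ W σ k n ≤ K} :=
        (hms n).inter ((hmW n) (measurableSet_Iic (a := K)))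
      rw [← lintegral_indicator_one hB, ← lintegral_const_mul _ (measurable_one.indicator hB)]
      refine lintegral_mono fun σ => ?_
      by_cases h : W σ k n ≠ 0 ∧ W σ k n ≤ K
      · rw [Set.indicator_of_mem (by exact h)]
        simp only [Pi.one_apply, mul_one, h.1, ne_eq, not_false_eq_true, true_and]
        have h4 : ∫⁻ b, (if U b (W σ k n) = 0 then (1 : ℝ≥0∞) else 0) ∂(cl q) =
            (cl q) {b | U b (W σ k n) = 0} := by
          have hC : MeasurableSet {b : ℕ → Bool | U b (W σ k n) = 0} :=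
            (meas_U _) (measurableSet_singleton 0)
          rw [← lintegral_indicator_one hC]
          refine lintegral_congr fun b => ?_
          simp only [Set.indicator, Set.mem_ofPred_eq, Pi.one_apply]
        rw [h4]
        refine le_trans ?_ (cyl_false (q := q) (W σ k n))
        apply ENNReal.ofReal_le_ofReal
        exact pow_le_pow_of_le_one (by norm_num) (by norm_num) h.2
      · rw [Set.indicator_of_notMem (by exact h), mul_zero]
        exact zero_le
    rw [← h1, h2] at h3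
    have h4 := ENNReal.toReal_mono (measure_ne_top _ _) h3
    rw [ENNReal.toReal_mul, ENNReal.toReal_ofReal (by positivity)] at h4
    have h5 : P.real {σ | W σ k n ≠ 0 ∧ W σ k (n+1) = 0} = u n - u (n+1) := by
      have h6 : {σ : ℕ → ℕ → Bool | W σ k n ≠ 0 ∧ W σ k (n+1) = 0} =
          {σ | W σ k n ≠ 0} \ {σ | W σ k (n+1) ≠ 0} := by
        ext σ; simp
      have h9 : {σ : ℕ → ℕ → Bool | W σ k (n+1) ≠ 0} ⊆ {σ | W σ k n ≠ 0} := by
        intro σ hσ h
        exact hσ (W_zero_succ h (Nat.le_succ n))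
      rw [h6, measureReal_sdiff h9 (hms (n+1))]
    have h7 : u n - (k : ℝ) / (K+1) ≤ P.real {σ | W σ k n ≠ 0 ∧ W σ k n ≤ K} := by
      have h8 : u n ≤ P.real {σ | W σ k n ≠ 0 ∧ W σ k n ≤ K} + P.real {σ | K + 1 ≤ W σ k n} := by
        refine le_trans (measureReal_mono fun σ hσ => ?_) (measureReal_union_le _ _)
        rcases le_or_gt (W σ k n) K with h | h
        · exact Or.inl ⟨hσ, h⟩
        · exact Or.inr h
      linarith [hmark n K]
    rw [← h5]
    exact (mul_le_mul_of_nonneg_left h7 (by positivity)).trans h4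
  -- limit
  obtain ⟨l, hl⟩ : ∃ l, Tendsto u atTop (𝓝 l) :=
    ⟨_, tendsto_atTop_ciInf (antitone_nat_of_succ_le hanti) ⟨0, by
      rintro _ ⟨n, rfl⟩; exact measureReal_nonneg⟩⟩
  have hl2 : Tendsto (fun n => u n - u (n+1)) atTop (𝓝 (l - l)) :=
    hl.sub (hl.comp (tendsto_add_atTop_nat 1))
  rw [sub_self] at hl2
  have hlK : ∀ K : ℕ, l ≤ (k : ℝ) / (K + 1) := by
    intro K
    have h1 : Tendsto (fun n => (1/4 : ℝ)^K * (u n - (k : ℝ) / (K+1))) atTop
        (𝓝 ((1/4 : ℝ)^K * (l - (k : ℝ) / (K+1)))) := (hl.sub_const _).const_mul _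
    have h2 := le_of_tendsto_of_tendsto' h1 hl2 fun n => hstep n K
    have h3 : (0:ℝ) < (1/4)^K := by positivity
    by_contra hc
    push Not at hc
    have : 0 < (1/4 : ℝ)^K * (l - (k : ℝ) / (K+1)) := mul_pos h3 (by linarith)
    linarith
  have hl0 : l ≤ 0 := by
    have h1 : Tendsto (fun K : ℕ => (k : ℝ) / ((K:ℝ) + 1)) atTop (𝓝 0) :=
      tendsto_const_nhds.div_atTop (tendsto_atTop_add_const_right _ _ tendsto_natCast_atTop_atTop)
    exact ge_of_tendsto' h1 hlK
  have hul0 : ul ≤ 0 := (ge_of_tendsto' hl hulu).trans hl0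
  have : ul = 0 := le_antisymm hul0 measureReal_nonneg
  exact (measureReal_eq_zero_iff).1 this

end Pool.Agent.V11320.EW
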