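import Pool.Agent.V11320.EW.Stack

set_option autoImplicit false
set_option linter.unusedSectionVars false

open MeasureTheory ProbabilityTheory Filter Topology
open scoped ENNReal

namespace Pool.Agent.V11320.EW

/-- one step of the walk driven by arrows: the state is (position, number of used arrows) -/
def stepA (ω : ℤ → ℕ → Bool) (s : ℤ × (ℤ → ℕ)) : ℤ × (ℤ → ℕ) :=
  (if ω s.1 (s.2 s.1) = true then s.1 + 1 else s.1 - 1, Function.update s.2 s.1 (s.2 s.1 + 1))

def stA (ω : ℤ → ℕ → Bool) : ℕ → ℤ × (ℤ → ℕ)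
  | 0 => (0, fun _ => 0)
  | n+1 => stepA ω (stA ω n)

def XA (ω : ℤ → ℕ → Bool) (n : ℕ) : ℤ := (stA ω n).1
def CA (ω : ℤ → ℕ → Bool) (n : ℕ) (y : ℤ) : ℕ := (stA ω n).2 y

variable {ω : ℤ → ℕ → Bool}

lemma XA_zero : XA ω 0 = 0 := rfl
lemma CA_zero (y : ℤ) : CA ω 0 y = 0 := rfl

lemma XA_succ (n : ℕ) : XA ω (n+1) =
    if ω (XA ω n) (CA ω n (XA ω n)) = true then XA ω n + 1 else XA ω n - 1 := rfl

lemma CA_succ (n : ℕ) (y : ℤ) : CA ω (n+1) y = if y = XA ω n then CA ω n y + 1 else CA ω n y := by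
  show Function.update (stA ω n).2 (stA ω n).1 ((stA ω n).2 (stA ω n).1 + 1) y = _
  rw [Function.update_apply]
  split_ifs with h h' h'
  · rw [h]; rfl
  · exact absurd h h'
  · exact absurd h' h
  · rfl

lemma CA_mono (y : ℤ) : Monotone fun n => CA ω n y := by
  refine monotone_nat_of_le_succ fun n => ?_
  rw [CA_succ]; split_ifs <;> omega

lemma flux (n : ℕ) (y : ℤ) :
    (tr (ω (y-1)) (CA ω n (y-1)) : ℤ) - fl (ω y) (CA ω n y) =
      (if 0 < y ∧ y ≤ XA ω n then 1 else 0) - (if XA ω n < y ∧ y ≤ 0 then 1 else 0) := by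
  induction n with
  | zero =>
    simp only [CA_zero, tr_zero, fl_zero, XA_zero]
    split_ifs <;> omega
  | succ n ih =>
    rw [XA_succ, CA_succ, CA_succ]
    by_cases h1 : y - 1 = XA ω n
    · have h2 : ¬ y = XA ω n := by omega
      rw [if_pos h1, if_neg h2, tr_succ]
      rw [h1] at ih ⊢
      cases h : ω (XA ω n) (CA ω n (XA ω n))
      · simp only [Bool.false_eq_true, if_false, add_zero]
        rw [ih]
        split_ifs <;> omega
      · simp only [if_true]
        push_cast
        have : (tr (ω (XA ω n)) (CA ω n (XA ω n)) : ℤ) + 1 - fl (ω y) (CA ω n y) =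
          (tr (ω (XA ω n)) (CA ω n (XA ω n)) - fl (ω y) (CA ω n y)) + 1 := by ring
        rw [this, ih]
        split_ifs <;> omega
    · rw [if_neg h1]
      by_cases h2 : y = XA ω n
      · rw [if_pos h2, fl_succ]
        subst h2
        cases h : ω (XA ω n) (CA ω n (XA ω n))
        · simp only [Bool.false_eq_true, if_false, if_true]
          push_cast
          have : (tr (ω (XA ω n - 1)) (CA ω n (XA ω n - 1)) : ℤ) -
              (fl (ω (XA ω n)) (CA ω n (XA ω n)) + 1) =
            (tr (ω (XA ω n - 1)) (CA ω n (XA ω n - 1)) - fl (ω (XA ω n)) (CA ω n (XA ω n))) - 1 := by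
            ring
          rw [this, ih]
          split_ifs <;> omega
        · simp only [if_true, Bool.true_eq_false, if_false, add_zero]
          rw [ih]
          split_ifs <;> omega
      · rw [if_neg h2, ih]
        split_ifs <;> omega

lemma lastA (n : ℕ) : ∀ z, XA ω n < z → CA ω n z = 0 ∨ ω z (CA ω n z - 1) = false := by
  induction n with
  | zero => intro z _; left; rfl
  | succ n ih =>
    intro z hz
    rw [XA_succ] at hz
    rw [CA_succ]
    by_cases h : z = XA ω n
    · rw [if_pos h]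
      right
      subst h
      rw [Nat.add_sub_cancel]
      by_contra hc
      rw [if_pos (by simpa using hc)] at hz
      omega
    · rw [if_neg h]
      refine ih z ?_
      split_ifs at hz <;> omega

lemma XA_le (n : ℕ) : XA ω n ≤ n ∧ ∀ z : ℤ, (n:ℤ) ≤ z → CA ω n z = 0 := by
  induction n with
  | zero => exact ⟨by simp [XA_zero], fun z _ => rfl⟩
  | succ n ih =>
    constructor
    · rw [XA_succ]; have := ih.1; push_cast; split_ifs <;> omega
    · intro z hz
      push_cast at hz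
      rw [CA_succ, if_neg (by have := ih.1; omega)]
      exact ih.2 z (by omega)

lemma W_rel {n : ℕ} (h : XA ω n = 0) (j : ℕ) :
    W (fun i => ω ((i:ℤ)+1)) (tr (ω 0) (CA ω n 0)) j = tr (ω j) (CA ω n j) := by
  induction j with
  | zero => simp [W]
  | succ j ih =>
    show U (ω ((j:ℤ)+1)) (W _ _ j) = _
    rw [ih]
    have h1 := flux (ω := ω) n ((j:ℤ)+1)
    have h2 : (j:ℤ) + 1 - 1 = j := by ring
    rw [h2, h] at h1
    have h3 : tr (ω j) (CA ω n j) = fl (ω ((j:ℤ)+1)) (CA ω n ((j:ℤ)+1)) := by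
      split_ifs at h1 <;> omega
    rw [h3, U_last (lastA n _ (by rw [h]; omega))]
    push_cast
    rfl

lemma dies_of {n : ℕ} (h : XA ω n = 0) :
    ∃ j, W (fun i => ω ((i:ℤ)+1)) (tr (ω 0) (CA ω n 0)) j = 0 := by
  refine ⟨n, ?_⟩
  rw [W_rel h, (XA_le n).2 n le_rfl, tr_zero]

lemma W_mono {σ : ℕ → ℕ → Bool} (hσ : ∀ n x, ∃ m, x ≤ fl (σ n) m) {k k' : ℕ} (h : k ≤ k') (n : ℕ) :
    W σ k n ≤ W σ k' n := by
  induction n with
  | zero => exact h
  | succ n ih =>
    obtain ⟨m, hm⟩ := hσ n (W σ k' n)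
    exact U_mono hm ih

lemma left_surv (hgood : ∀ z x, ∃ m, x ≤ tr (ω z) m) {k : ℕ}
    (hk : ∀ n, fl (ω 0) (CA ω n 0) ≤ k) (hX : ∀ J : ℕ, ∃ n, XA ω n < -(J:ℤ)) (j : ℕ) :
    W (fun i => neg (ω (-((i:ℤ)+1)))) k j ≠ 0 := by
  obtain ⟨n, hn⟩ := hX j
  have h1 : ∀ i ≤ j, fl (ω (-(i:ℤ))) (CA ω n (-(i:ℤ))) ≤ W (fun i => neg (ω (-((i:ℤ)+1)))) k i := by
    intro i hi
    induction i with
    | zero => simpa [W] using hk n
    | succ i ih =>
      have hi' := ih (by omega)
      have h2 := flux (ω := ω) n (-(i:ℤ))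
      rw [if_neg (by omega), if_pos (by omega)] at h2
      have h3 : fl (ω (-(i:ℤ))) (CA ω n (-(i:ℤ))) = tr (ω (-(i:ℤ)-1)) (CA ω n (-(i:ℤ)-1)) + 1 := by
        omega
      rw [h3] at hi'
      have e : -(((i+1 : ℕ)):ℤ) = -(i:ℤ) - 1 := by push_cast; ring
      rw [e]
      show _ ≤ U (neg (ω (-((i:ℤ)+1)))) (W _ k i)
      have e2 : -((i:ℤ)+1) = -(i:ℤ) - 1 := by ring
      rw [e2]
      obtain ⟨m, hm⟩ := hgood (-(i:ℤ)-1) (W (fun i => neg (ω (-((i:ℤ)+1)))) k i)
      obtain ⟨m', hm'⟩ := hgood (-(i:ℤ)-1) (tr (ω (-(i:ℤ)-1)) (CA ω n (-(i:ℤ)-1)) + 1)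
      refine (le_U_neg hm').trans ?_
      refine U_mono (n := m) ?_ hi'
      rw [fl_neg]; exact hm
  have h2 := flux (ω := ω) n (-(j:ℤ))
  rw [if_neg (by omega), if_pos (by omega)] at h2
  have h3 := h1 j le_rfl
  omega

lemma visit_exists {z : ℤ} {c : ℕ} (n : ℕ) (h : c + 1 ≤ CA ω n z) :
    ∃ m, XA ω m = z ∧ CA ω m z = c := by
  induction n with
  | zero => simp [CA_zero] at h
  | succ n ih =>
    rw [CA_succ] at h
    by_cases h1 : c + 1 ≤ CA ω n z
    · exact ih h1
    · split_ifs at h with h2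
      · exact ⟨n, h2.symm, by omega⟩
      · omega

lemma fl_le (b : ℕ → Bool) (n : ℕ) : fl b n ≤ n := by have := tr_add_fl b n; omega
lemma tr_le (b : ℕ → Bool) (n : ℕ) : tr b n ≤ n := by have := tr_add_fl b n; omega

/-- the deterministic dichotomy -/
theorem walk_transient (hf : ∀ z x, ∃ m, x ≤ fl (ω z) m) (ht : ∀ z x, ∃ m, x ≤ tr (ω z) m)
    (hR : ¬ ∀ k, ∃ n, W (fun i => ω ((i:ℤ)+1)) k n = 0)
    (hL : ∀ k, ¬ ∀ n, W (fun i => neg (ω (-((i:ℤ)+1)))) k n ≠ 0) :
    Tendsto (XA ω) atTop atTop := by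
  -- unboundedly many visits
  set Unb : ℤ → Prop := fun z => ∀ N, ∃ n, N ≤ CA ω n z with hUnb
  have hup : ∀ z, Unb z → Unb (z+1) := by
    intro z h N
    obtain ⟨m, hm⟩ := ht z (N+1)
    obtain ⟨n, hn⟩ := h m
    refine ⟨n, ?_⟩
    have h1 := flux (ω := ω) n (z+1)
    have h2 : z + 1 - 1 = z := by ring
    rw [h2] at h1
    have h3 := tr_mono (ω z) hn
    have h4 := fl_le (ω (z+1)) (CA ω n (z+1))
    split_ifs at h1 <;> omega
  have hdown : ∀ z, Unb z → Unb (z-1) := by
    intro z h N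
    obtain ⟨m, hm⟩ := hf z (N+1)
    obtain ⟨n, hn⟩ := h m
    refine ⟨n, ?_⟩
    have h1 := flux (ω := ω) n z
    have h3 := fl_mono (ω z) hn
    have h4 := tr_le (ω (z-1)) (CA ω n (z-1))
    split_ifs at h1 <;> omega
  have h0 : ¬ Unb 0 := by
    intro h
    refine hR fun k => ?_
    obtain ⟨c, hc⟩ := ht 0 k
    obtain ⟨n, hn⟩ := h (c+1)
    obtain ⟨m, hm, hmc⟩ := visit_exists n hn
    obtain ⟨j, hj⟩ := dies_of hm
    rw [hmc] at hj
    refine ⟨j, ?_⟩
    have := W_mono (σ := fun i => ω ((i:ℤ)+1)) (fun n x => hf _ x) hc j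
    omega
  have hall : ∀ z, ¬ Unb z := by
    intro z h
    apply h0
    have hpos : ∀ m : ℕ, ∀ z, Unb z → Unb (z + m) := by
      intro m
      induction m with
      | zero => intro z h; simpa using h
      | succ m ih =>
        intro z h
        have := hup _ (ih z h)
        push_cast
        rw [← add_assoc]; exact this
    have hneg : ∀ m : ℕ, ∀ z, Unb z → Unb (z - m) := by
      intro m
      induction m with
      | zero => intro z h; simpa using h
      | succ m ih =>
        intro z h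
        have := hdown _ (ih z h)
        push_cast
        rw [← sub_sub]; exact this
    rcases le_total 0 z with hz | hz
    · have := hneg z.toNat z h
      rw [Int.toNat_of_nonneg hz, sub_self] at this
      exact this
    · have := hpos (-z).toNat z h
      rw [Int.toNat_of_nonneg (by omega), add_neg_cancel] at this
      exact this
  have havoid : ∀ z, ∀ᶠ n in atTop, XA ω n ≠ z := by
    intro z
    by_contra hc
    apply hall z
    rw [not_eventually] at hc
    have hc' : ∃ᶠ n in atTop, XA ω n = z := hc.mono fun n hn => not_not.1 hn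
    intro N
    induction N with
    | zero => exact ⟨0, Nat.zero_le _⟩
    | succ N ih =>
      obtain ⟨n, hn⟩ := ih
      obtain ⟨m, hm, hmz⟩ := frequently_atTop.1 hc' n
      refine ⟨m+1, ?_⟩
      rw [CA_succ, if_pos hmz.symm]
      have := CA_mono (ω := ω) z hm
      simp only at this
      omega
  have hstep : ∀ n, XA ω (n+1) = XA ω n + 1 ∨ XA ω (n+1) = XA ω n - 1 := by
    intro n; rw [XA_succ]; split_ifs <;> simp
  have hK : ∀ K : ℕ, ∀ᶠ n in atTop, XA ω n < -(K:ℤ) ∨ (K:ℤ) < XA ω n := by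
    intro K
    have h1 : ∀ᶠ n in atTop, ∀ z ∈ Finset.Icc (-(K:ℤ)) K, XA ω n ≠ z :=
      (Filter.eventually_all_finset _).2 fun z _ => havoid z
    filter_upwards [h1] with n hn
    by_contra hc
    push Not at hc
    exact hn (XA ω n) (Finset.mem_Icc.2 hc) rfl
  obtain ⟨n0, hn0⟩ := eventually_atTop.1 (hK 0)
  rcases hn0 n0 le_rfl with h | h
  · -- negative
    exfalso
    have hneg : ∀ n ≥ n0, XA ω n < 0 := by
      intro n hn
      induction n, hn using Nat.le_induction with
      | base => simpa using h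
      | succ n hn ih =>
        have h1 := hn0 (n+1) (by omega)
        rcases hstep n with h2 | h2 <;> simp at h1 <;> omega
    have hB : ∃ B, ∀ n, CA ω n 0 ≤ B := by
      have := h0
      simp only [hUnb] at this
      push Not at this
      obtain ⟨N, hN⟩ := this
      exact ⟨N, fun n => (hN n).le⟩
    obtain ⟨B, hB⟩ := hB
    refine hL B (left_surv ht (fun n => (fl_le _ _).trans (hB n)) fun J => ?_)
    obtain ⟨n, h1, h2⟩ := ((hK J).and (eventually_ge_atTop n0)).exists
    refine ⟨n, ?_⟩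
    have := hneg n h2
    rcases h1 with h1 | h1
    · exact h1
    · omega
  · have hpos : ∀ n ≥ n0, 0 < XA ω n := by
      intro n hn
      induction n, hn using Nat.le_induction with
      | base => simpa using h
      | succ n hn ih =>
        have h1 := hn0 (n+1) (by omega)
        rcases hstep n with h2 | h2 <;> simp at h1 <;> omega
    rw [tendsto_atTop]
    intro b
    filter_upwards [hK b.toNat, eventually_ge_atTop n0] with n h1 h2
    have := hpos n h2
    rcases h1 with h1 | h1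
    · omega
    · have := Int.self_le_toNat b
      omega

end Pool.Agent.V11320.EW
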